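import Mathlib

/-!
# Project UI (helper29): uniform boundedness for `z ^ d + c` in characteristic `p` dividing `d`

Statements of the packages.
-/

namespace Pool.Agent.P8H29.UI

open Finset

universe u v w

/-- Places of a function field `K` of one variable with algebraically closed field of constants `k`
of characteristic `p`: additive valuations `ord` (junk at `0`), weights, the product formula, and a
derivation with a bounded loss `ls` (possibly negative) at every place. -/
structure PC (p : ℕ) (k : Type u) (K : Type v) [Field k] [Field K] [Algebra k K] where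
  Pl : Type w
  ord : Pl → K → ℤ
  wt : Pl → ℤ
  wt_one : ∀ v, 1 ≤ wt v
  ord_mul : ∀ v x y, x ≠ 0 → y ≠ 0 → ord v (x * y) = ord v x + ord v y
  ord_add : ∀ v x y (m : ℤ), x ≠ 0 → y ≠ 0 → x + y ≠ 0 → m ≤ ord v x → m ≤ ord v y →
    m ≤ ord v (x + y)
  ord_alg : ∀ v (c : k), c ≠ 0 → ord v (algebraMap k K c) = 0
  fin : ∀ x, x ≠ 0 → {v | ord v x ≠ 0}.Finite
  sum : ∀ x, x ≠ 0 → ∀ S : Finset Pl, (∀ v, v ∉ S → ord v x = 0) →
    ∑ v ∈ S, wt v * ord v x = 0
  const : ∀ x, x ≠ 0 → (∀ v, 0 ≤ ord v x) → ∃ c : k, algebraMap k K c = x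
  D : Derivation k K K
  D_ker : ∀ x, D x = 0 → ∃ y, y ^ p = x
  ls : Pl → ℤ
  lsS : Finset Pl
  ls_supp : ∀ v, v ∉ lsS → ls v = 0
  T : ℤ
  ls_sum : ∑ v ∈ lsS, wt v * ls v = T
  D_ord : ∀ v x, x ≠ 0 → D x ≠ 0 → ord v x - 1 - ls v ≤ ord v (D x)
  D_ord' : ∀ v x, x ≠ 0 → D x ≠ 0 → 0 ≤ ord v x → - ls v ≤ ord v (D x)

/-- EX: place data exist for every function field of one variable over an algebraically closed
field of characteristic `p`. -/
def S_EX : Prop :=
  ∀ (p : ℕ) [Fact p.Prime] (k K : Type u) [Field k] [IsAlgClosed k] [CharP k p] [Field K]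
    [Algebra k K], (⊤ : IntermediateField k K).FG →
    (∃ x : K, Transcendental k x ∧ Algebra.IsAlgebraic (IntermediateField.adjoin k {x}) K) →
    Nonempty (PC.{u, u, u} p k K)

/-- RAT: for the rational function field one can take the total loss `-2`. -/
def S_RAT : Prop :=
  ∀ (p : ℕ) [Fact p.Prime] (k : Type u) [Field k] [IsAlgClosed k] [CharP k p],
    ∃ Q : PC.{u, u, u} p k (RatFunc k), Q.T = -2

/-- RED: reduction to an algebraically closed field of constants. -/
def S_RED : Prop :=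
  ∀ (p : ℕ) [Fact p.Prime] (k : Type v) (K : Type u) [Field k] [CharP k p] [Field K] [Algebra k K]
    (t : K), Transcendental k t → FiniteDimensional (IntermediateField.adjoin k {t}) K →
    ∃ (k' K' : Type u) (_ : Field k') (_ : IsAlgClosed k') (_ : CharP k' p) (_ : Field K')
      (_ : Algebra k' K') (Q : PC.{u, u, u} p k' K') (j : K →+* K'),
      (∀ c : K, Transcendental k c → ∀ a : k', algebraMap k' K' a ≠ j c) ∧
      (IntermediateField.adjoin k {t} = ⊤ → Q.T = -2)

/-- ENG: a lower bound for the energy of a finite set with a hierarchy of partitions. -/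
def S_ENG : Prop :=
  ∀ (α : Type u) (P : Finset α) (m : ℕ) (Q A : ℝ) (cl : ℕ → α → Fin m) (G : ℕ → α → α → ℝ),
    1 ≤ m → 2 ≤ Q → 0 ≤ A → (∀ j, ∀ x ∈ P, ∀ y ∈ P, 0 ≤ G j x y) →
    (∀ j, ∀ x ∈ P, ∀ y ∈ P, G j x y =
      if cl j x = cl j y then A * (1 - 1 / Q) + G (j + 1) x y / Q else 0) →
    A * (Q - 1) / (Q * m - 1) * (P.card : ℝ) ^ 2 ≤ ∑ x ∈ P, ∑ y ∈ P, G 0 x y

end Pool.Agent.P8H29.UI
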