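import Mathlib
import Pool.Agent.P8H29.UI.Stm

/-!
# Project UI: orders, local analysis
-/

namespace Pool.Agent.P8H29.UI

open Finset

universe u v w

namespace PC

variable {p : ℕ} {k : Type u} {K : Type v} [Field k] [Field K] [Algebra k K] (Q : PC.{u, v, w} p k K)
  {v : Q.Pl}

lemma ord_one (v : Q.Pl) : Q.ord v 1 = 0 := by
  have h := Q.ord_mul v 1 1 one_ne_zero one_ne_zero
  rw [mul_one] at h
  omega

lemma ord_neg (v : Q.Pl) {x : K} (hx : x ≠ 0) : Q.ord v (-x) = Q.ord v x := by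
  have h1 := Q.ord_mul v (-1) (-1) (by simp) (by simp)
  rw [neg_mul_neg, one_mul, Q.ord_one] at h1
  have h2 := Q.ord_mul v (-1) x (by simp) hx
  rw [neg_one_mul] at h2
  omega

lemma ord_pow (v : Q.Pl) {x : K} (hx : x ≠ 0) (n : ℕ) : Q.ord v (x ^ n) = n * Q.ord v x := by
  induction n with
  | zero => simp [Q.ord_one]
  | succ n ih =>
    rw [pow_succ, Q.ord_mul v _ _ (pow_ne_zero _ hx) hx, ih]
    push_cast
    ring

/-- vanishing order at least `a`, or zero -/
def G (v : Q.Pl) (a : ℤ) (x : K) : Prop := x ≠ 0 → a ≤ Q.ord v x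

lemma G_zero (v : Q.Pl) (a : ℤ) : Q.G v a 0 := fun h => absurd rfl h

variable {Q} {a b : ℤ} {x y : K}

lemma G_mono (h : Q.G v a x) (hb : b ≤ a) : Q.G v b x := fun hx => hb.trans (h hx)

lemma G_add (h1 : Q.G v a x) (h2 : Q.G v a y) : Q.G v a (x + y) := by
  intro h
  by_cases hx : x = 0
  · subst hx
    rw [zero_add] at h ⊢
    exact h2 h
  by_cases hy : y = 0
  · subst hy
    rw [add_zero] at h ⊢
    exact h1 h
  exact Q.ord_add v x y a hx hy h (h1 hx) (h2 hy)

lemma G_neg (h1 : Q.G v a x) : Q.G v a (-x) := by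
  intro h
  have hx : x ≠ 0 := by
    rintro rfl
    simp at h
  rw [Q.ord_neg v hx]
  exact h1 hx

lemma G_sub (h1 : Q.G v a x) (h2 : Q.G v a y) : Q.G v a (x - y) := by
  rw [sub_eq_add_neg]
  exact G_add h1 (G_neg h2)

lemma G_mul (h1 : Q.G v a x) (h2 : Q.G v b y) : Q.G v (a + b) (x * y) := by
  intro h
  have hx := left_ne_zero_of_mul h
  have hy := right_ne_zero_of_mul h
  rw [Q.ord_mul v x y hx hy]
  exact add_le_add (h1 hx) (h2 hy)

lemma G_pow (h1 : Q.G v a x) (n : ℕ) : Q.G v (n * a) (x ^ n) := by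
  induction n with
  | zero =>
    intro _
    simp [Q.ord_one]
  | succ n ih =>
    rw [pow_succ]
    refine G_mono (G_mul ih h1) ?_
    push_cast
    linarith [le_refl ((n : ℤ) * a + a)]

lemma G_pow0 (h1 : Q.G v 0 x) (n : ℕ) : Q.G v 0 (x ^ n) := by
  have := G_pow h1 n
  rwa [mul_zero] at this

lemma G_sum {ι : Type*} (s : Finset ι) (f : ι → K) (h : ∀ i ∈ s, Q.G v a (f i)) :
    Q.G v a (∑ i ∈ s, f i) := by
  classical
  induction s using Finset.induction_on with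
  | empty => simpa using Q.G_zero v a
  | insert i s hi ih =>
    rw [Finset.sum_insert hi]
    exact G_add (h i (Finset.mem_insert_self _ _))
      (ih fun j hj => h j (Finset.mem_insert_of_mem hj))

lemma G_self (x' : K) (e : x' = x) : Q.G v (Q.ord v x) x' := fun _ => by rw [e]

lemma G_alg (v : Q.Pl) (c : k) : Q.G v 0 (algebraMap k K c) := by
  intro h
  have hc : c ≠ 0 := by
    rintro rfl
    simp at h
  rw [Q.ord_alg v c hc]

/-- the order of a sum with a dominating term -/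
lemma ord_add_lt (hx : x ≠ 0) (h : Q.G v (Q.ord v x + 1) y) :
    x + y ≠ 0 ∧ Q.ord v (x + y) = Q.ord v x := by
  have h0 : x + y ≠ 0 := by
    intro h0
    have h1 : y = -x := by linear_combination h0
    have hy : y ≠ 0 := by
      rw [h1]
      exact neg_ne_zero.mpr hx
    have h2 := h hy
    rw [h1, Q.ord_neg v hx] at h2
    omega
  refine ⟨h0, ?_⟩
  have h1 : Q.ord v x ≤ Q.ord v (x + y) :=
    G_add (Q := Q) (v := v) (a := Q.ord v x) (fun _ => le_rfl) (G_mono h (by omega)) h0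
  by_contra hne
  have h2 : Q.ord v x + 1 ≤ Q.ord v (x + y) := by omega
  have h3 : Q.G v (Q.ord v x + 1) ((x + y) - y) := G_sub (fun _ => h2) h
  rw [add_sub_cancel_right] at h3
  have := h3 hx
  omega

variable (Q)

/-- product formula, inequality -/
lemma prod_le (hx : x ≠ 0) (S : Finset Q.Pl) (h : ∀ v, v ∉ S → 0 ≤ Q.ord v x) :
    ∑ v ∈ S, Q.wt v * Q.ord v x ≤ 0 := by
  classical
  have h1 := Q.sum x hx (S ∪ (Q.fin x hx).toFinset) (by
    intro v hv
    by_contra hcon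
    exact hv (by simp [hcon]))
  rw [← Finset.sum_sdiff (Finset.subset_union_left (s₁ := S))] at h1
  have h2 : 0 ≤ ∑ v ∈ (S ∪ (Q.fin x hx).toFinset) \ S, Q.wt v * Q.ord v x :=
    Finset.sum_nonneg fun v hv => mul_nonneg (zero_le_one.trans (Q.wt_one v))
      (h v (Finset.mem_sdiff.mp hv).2)
  linarith

/-- the total loss bounds the sum of the zeros -/
lemma loss_bound (hx : x ≠ 0) (S : Finset Q.Pl) (g : Q.Pl → ℤ) (q : ℤ) (hq : 0 ≤ q)
    (h1 : ∀ v ∈ S, g v ≤ q * (Q.ord v x + Q.ls v)) (h2 : ∀ v, v ∉ S → 0 ≤ Q.ord v x + Q.ls v) :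
    ∑ v ∈ S, Q.wt v * g v ≤ q * Q.T := by
  classical
  set W := S ∪ ((Q.fin x hx).toFinset ∪ Q.lsS) with hW
  have h3 := Q.sum x hx W (by
    intro v hv
    by_contra hcon
    exact hv (by simp [hW, hcon]))
  have h4 : ∑ v ∈ W, Q.wt v * Q.ls v = Q.T := by
    rw [← Q.ls_sum]
    symm
    apply Finset.sum_subset
    · intro v hv
      simp [hW, hv]
    · intro v _ hv
      rw [Q.ls_supp v hv, mul_zero]
  have h5 : ∑ v ∈ W, Q.wt v * (q * (Q.ord v x + Q.ls v)) = q * Q.T := by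
    have : ∀ v ∈ W, Q.wt v * (q * (Q.ord v x + Q.ls v)) =
        q * (Q.wt v * Q.ord v x) + q * (Q.wt v * Q.ls v) := fun v _ => by ring
    rw [Finset.sum_congr rfl this, Finset.sum_add_distrib, ← Finset.mul_sum, ← Finset.mul_sum, h3,
      h4]
    ring
  rw [← h5, ← Finset.sum_sdiff (Finset.subset_union_left (s₁ := S) (s₂ :=
    (Q.fin x hx).toFinset ∪ Q.lsS))]
  have h6 : 0 ≤ ∑ v ∈ W \ S, Q.wt v * (q * (Q.ord v x + Q.ls v)) :=
    Finset.sum_nonneg fun v hv => mul_nonneg (zero_le_one.trans (Q.wt_one v))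
      (mul_nonneg hq (h2 v (Finset.mem_sdiff.mp hv).2))
  have h7 : ∑ v ∈ S, Q.wt v * g v ≤ ∑ v ∈ S, Q.wt v * (q * (Q.ord v x + Q.ls v)) :=
    Finset.sum_le_sum fun v hv => mul_le_mul_of_nonneg_left (h1 v hv)
      (zero_le_one.trans (Q.wt_one v))
  linarith

/-- derivatives of `p`-th powers -/
lemma D_pow_eq_zero [CharP K p] (x : K) (n : ℕ) (h : p ∣ n) : Q.D (x ^ n) = 0 := by
  rw [Derivation.leibniz_pow]
  have : (n : K) = 0 := (CharP.cast_eq_zero_iff K p n).mpr h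
  rw [← Nat.cast_smul_eq_nsmul K, this, zero_smul]

lemma D_alg_mul (a : k) (x : K) : Q.D (algebraMap k K a * x) = algebraMap k K a * Q.D x := by
  rw [← Algebra.smul_def, Q.D.map_smul, Algebra.smul_def]

lemma G_D (x : K) (h : Q.D x ≠ 0) (h2 : Q.G v a x) : a - 1 ≤ Q.ord v (Q.D x) + Q.ls v := by
  have hx : x ≠ 0 := by
    rintro rfl
    simp at h
  have h1 := Q.D_ord v x hx h
  have h3 := h2 hx
  linarith

lemma G_D0 (x : K) (h : Q.D x ≠ 0) (h2 : Q.G v 0 x) : 0 ≤ Q.ord v (Q.D x) + Q.ls v := by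
  have hx : x ≠ 0 := by
    rintro rfl
    simp at h
  have h1 := Q.D_ord' v x hx h (h2 hx)
  linarith

end PC

end Pool.Agent.P8H29.UI
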