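import Mathlib
import Pool.Agent.P8H29.UI.Core1

/-!
# Project UI: local dynamics of `x ^ d + c`
-/

namespace Pool.Agent.P8H29.UI

open Finset

universe u v w

namespace PC

variable {p : ℕ} {k : Type u} {K : Type v} [Field k] [Field K] [Algebra k K] {Q : PC.{u, v, w} p k K}
  {v : Q.Pl}

/-- At a place where `c` is integral all points are integral. -/
lemma good_int {d : ℕ} (hd : 2 ≤ d) {c : K} {R : Finset K} (hR : ∀ x ∈ R, x ^ d + c ∈ R)
    (hc : Q.G v 0 c) : ∀ x ∈ R, Q.G v 0 x := by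
  classical
  by_contra hcon
  push Not at hcon
  obtain ⟨x₁, hx₁, h1⟩ := hcon
  have hne : (R.filter fun x => ¬ Q.G v 0 x).Nonempty := ⟨x₁, by simp [hx₁, h1]⟩
  obtain ⟨x, hx, hmin⟩ := Finset.exists_min_image _ (fun x => Q.ord v x) hne
  rw [Finset.mem_filter] at hx
  obtain ⟨hxR, hxG⟩ := hx
  unfold G at hxG
  push Not at hxG
  obtain ⟨hx0, hxo⟩ := hxG
  have h2 : Q.ord v (x ^ d) = d * Q.ord v x := Q.ord_pow v hx0 d
  have hd' : (2 : ℤ) ≤ d := by exact_mod_cast hd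
  have h3 : (d : ℤ) * Q.ord v x < Q.ord v x := by nlinarith
  obtain ⟨h4, h5⟩ := ord_add_lt (Q := Q) (v := v) (y := c) (pow_ne_zero d hx0)
    (G_mono hc (by rw [h2]; omega))
  have h6 := hmin (x ^ d + c) (by
    rw [Finset.mem_filter]
    refine ⟨hR x hxR, ?_⟩
    intro h
    have := h h4
    rw [h5, h2] at this
    omega)
  rw [h5, h2] at h6
  omega

/-- At a place where `c` has a pole all points have the same order. -/
lemma bad_ord {d : ℕ} (hd : 2 ≤ d) {c : K} (hc0 : c ≠ 0) {R : Finset K}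
    (hR : ∀ x ∈ R, x ^ d + c ∈ R) (hc : Q.ord v c < 0) :
    ∀ x ∈ R, x ≠ 0 ∧ (d : ℤ) * Q.ord v x = Q.ord v c := by
  classical
  have hd' : (2 : ℤ) ≤ d := by exact_mod_cast hd
  have hA : ∀ x ∈ R, x ≠ 0 → Q.ord v c ≤ d * Q.ord v x := by
    by_contra hcon
    push Not at hcon
    obtain ⟨x₁, hx₁, h0, h1⟩ := hcon
    have hne : (R.filter fun x => x ≠ 0 ∧ (d : ℤ) * Q.ord v x < Q.ord v c).Nonempty :=
      ⟨x₁, by simp [hx₁, h0, h1]⟩
    obtain ⟨x, hx, hmin⟩ := Finset.exists_min_image _ (fun x => Q.ord v x) hne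
    rw [Finset.mem_filter] at hx
    obtain ⟨hxR, hx0, hxo⟩ := hx
    have h2 : Q.ord v (x ^ d) = d * Q.ord v x := Q.ord_pow v hx0 d
    have h3 : Q.ord v x < 0 := by
      by_contra h
      push Not at h
      have : 0 ≤ (d : ℤ) * Q.ord v x := by positivity
      omega
    have h3' : (d : ℤ) * Q.ord v x < Q.ord v x := by nlinarith
    obtain ⟨h4, h5⟩ := ord_add_lt (Q := Q) (v := v) (y := c) (pow_ne_zero d hx0)
      (fun _ => by rw [h2]; omega)
    have h6 := hmin (x ^ d + c) (by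
      rw [Finset.mem_filter]
      refine ⟨hR x hxR, h4, ?_⟩
      rw [h5, h2]
      nlinarith)
    rw [h5, h2] at h6
    omega
  intro x hxR
  by_contra hcon
  have h7 : x ^ d + c ≠ 0 ∧ Q.ord v (x ^ d + c) = Q.ord v c := by
    rw [add_comm]
    apply ord_add_lt hc0
    intro hxd
    have hx0 : x ≠ 0 := by
      rintro rfl
      exact hxd (zero_pow (by omega))
    rw [Q.ord_pow v hx0]
    have h8 := hA x hxR hx0
    have h9 : (d : ℤ) * Q.ord v x ≠ Q.ord v c := fun h => hcon ⟨hx0, h⟩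
    omega
  have h8 := hA _ (hR x hxR) h7.1
  rw [h7.2] at h8
  nlinarith

/-- the difference of two powers -/
lemma G_pow_sub {x y : K} (m : ℕ) (hx : Q.G v 0 x) (hy : Q.G v 0 y) (h : x ^ m ≠ y ^ m) :
    Q.ord v (x - y) ≤ Q.ord v (x ^ m - y ^ m) := by
  have h1 := (Commute.all x y).geom_sum₂_mul m
  have h2 : Q.G v 0 (∑ i ∈ Finset.range m, x ^ i * y ^ (m - 1 - i)) :=
    G_sum _ _ fun i _ => by
      have := G_mul (G_pow0 hx i) (G_pow0 hy (m - 1 - i))
      rwa [add_zero] at this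
  have h3 : (∑ i ∈ Finset.range m, x ^ i * y ^ (m - 1 - i)) * (x - y) ≠ 0 := by
    rw [h1]
    exact sub_ne_zero.mpr h
  rw [← h1, Q.ord_mul v _ _ (left_ne_zero_of_mul h3) (right_ne_zero_of_mul h3)]
  have := h2 (left_ne_zero_of_mul h3)
  omega

section Char

variable [Fact p.Prime] [CharP K p]

lemma frob_sub (q : ℕ) (e m : ℕ) (hq : q = p ^ e) (x y c : K) :
    (x ^ (q * m) + c) - (y ^ (q * m) + c) = (x ^ m - y ^ m) ^ q := by
  subst hq
  rw [sub_pow_char_pow, mul_comm, pow_mul, pow_mul]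
  ring

/-- Differences of distinct periodic points are units at the places where `c` is integral. -/
lemma good_unit {q e m : ℕ} (hq : q = p ^ e) (he : 1 ≤ e) (hm : 1 ≤ m) {c : K} {P : Finset K}
    (hP : ∀ x ∈ P, x ^ (q * m) + c ∈ P)
    (hinj : ∀ x ∈ P, ∀ y ∈ P, x ^ (q * m) + c = y ^ (q * m) + c → x = y)
    (hc : Q.G v 0 c) : ∀ x ∈ P, ∀ y ∈ P, x ≠ y → Q.ord v (x - y) = 0 := by
  classical
  have hp2 : 2 ≤ p := (Fact.out : p.Prime).two_le
  have hq2 : 2 ≤ q := by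
    rw [hq]
    calc 2 ≤ p := hp2
      _ = p ^ 1 := (pow_one p).symm
      _ ≤ p ^ e := Nat.pow_le_pow_right (by omega) he
  have hq2' : (2 : ℤ) ≤ q := by exact_mod_cast hq2
  have hint := good_int (Q := Q) (v := v) (d := q * m) (by nlinarith) hP hc
  have hle : ∀ x ∈ P, ∀ y ∈ P, x ≠ y → Q.ord v (x - y) ≤ 0 := by
    by_contra hcon
    push Not at hcon
    obtain ⟨x₁, hx₁, y₁, hy₁, h0, h1⟩ := hcon
    have hne : ((P ×ˢ P).filter fun z : K × K => z.1 ≠ z.2).Nonempty :=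
      ⟨(x₁, y₁), by simp [hx₁, hy₁, h0]⟩
    obtain ⟨⟨x, y⟩, hxy, hmax⟩ := Finset.exists_max_image _
      (fun z : K × K => Q.ord v (z.1 - z.2)) hne
    rw [Finset.mem_filter, Finset.mem_product] at hxy
    obtain ⟨⟨hx, hy⟩, hxyne⟩ := hxy
    simp only at hx hy hxyne hmax
    have hpos : 0 < Q.ord v (x - y) :=
      h1.trans_le (hmax (x₁, y₁) (by simp [hx₁, hy₁, h0]))
    have hfne : x ^ (q * m) + c ≠ y ^ (q * m) + c := fun h => hxyne (hinj x hx y hy h)
    have hmne : x ^ m - y ^ m ≠ 0 := by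
      intro h
      apply hfne
      have := frob_sub q e m hq x y c
      rw [h, zero_pow (by omega)] at this
      exact sub_eq_zero.mp this
    have h2 : Q.ord v ((x ^ (q * m) + c) - (y ^ (q * m) + c)) = q * Q.ord v (x ^ m - y ^ m) := by
      rw [frob_sub q e m hq, Q.ord_pow v hmne]
    have h3 := G_pow_sub (Q := Q) (v := v) m (hint x hx) (hint y hy) (sub_ne_zero.mp hmne)
    have h4 := hmax (x ^ (q * m) + c, y ^ (q * m) + c) (by simp [hP x hx, hP y hy, hfne])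
    simp only at h4
    rw [h2] at h4
    nlinarith
  intro x hx y hy hxy
  apply le_antisymm (hle x hx y hy hxy)
  exact G_sub (hint x hx) (hint y hy) (sub_ne_zero.mpr hxy)

end Char

end PC

end Pool.Agent.P8H29.UI
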