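import Mathlib
import Pool.Agent.P8H29.UI.Core2

/-!
# Project UI: classes at a bad place
-/

namespace Pool.Agent.P8H29.UI

open Finset Polynomial

universe u v w

namespace PC

variable {p : ℕ} {k : Type u} {K : Type v} [Field k] [Field K] [Algebra k K] {Q : PC.{u, v, w} p k K}
  {v : Q.Pl}

lemma ord_prod {ι : Type*} (s : Finset ι) (f : ι → K) (h : ∀ i ∈ s, f i ≠ 0) :
    Q.ord v (∏ i ∈ s, f i) = ∑ i ∈ s, Q.ord v (f i) := by
  classical
  induction s using Finset.induction_on with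
  | empty => simpa using Q.ord_one v
  | insert i s hi ih =>
    rw [Finset.prod_insert hi, Finset.sum_insert hi, Q.ord_mul v _ _
      (h i (Finset.mem_insert_self _ _)) (Finset.prod_ne_zero_iff.mpr fun j hj =>
        h j (Finset.mem_insert_of_mem hj)), ih fun j hj => h j (Finset.mem_insert_of_mem hj)]

section Roots

variable {m : ℕ} (hm : 1 ≤ m) {z : k} (hz : IsPrimitiveRoot z m)

include hm hz in
lemma root_alg {ζ : K} (hζ : ζ ^ m = 1) : ∃ a : k, a ^ m = 1 ∧ algebraMap k K a = ζ := by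
  have : NeZero m := ⟨by omega⟩
  have h1 : IsPrimitiveRoot (algebraMap k K z) m :=
    hz.map_of_injective (algebraMap k K).injective
  obtain ⟨i, _, hi⟩ := h1.eq_pow_of_pow_eq_one hζ
  refine ⟨z ^ i, ?_, by rw [map_pow, hi]⟩
  rw [← pow_mul, mul_comm, pow_mul, hz.pow_eq_one, one_pow]

include hm hz in
lemma prod_roots (x y : K) : x ^ m - y ^ m = ∏ ζ ∈ nthRootsFinset m (1 : K), (x - ζ * y) := by
  have h1 : IsPrimitiveRoot (algebraMap k K z) m :=
    hz.map_of_injective (algebraMap k K).injective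
  exact h1.pow_sub_pow_eq_prod_sub_mul x y (by omega)

include hm hz in
lemma card_roots : (nthRootsFinset m (1 : K)).card = m := by
  have h1 : IsPrimitiveRoot (algebraMap k K z) m :=
    hz.map_of_injective (algebraMap k K).injective
  exact h1.card_nthRootsFinset

include hm in
lemma mem_roots' {ζ : K} : ζ ∈ nthRootsFinset m (1 : K) ↔ ζ ^ m = 1 :=
  mem_nthRootsFinset (by omega) 1

include hm hz in
lemma ord_root {ζ : K} (hζ : ζ ^ m = 1) : Q.ord v ζ = 0 := by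
  obtain ⟨a, ha, rfl⟩ := root_alg (K := K) hm hz hζ
  apply Q.ord_alg
  rintro rfl
  rw [zero_pow (by omega)] at ha
  exact zero_ne_one ha

include hm hz in
lemma ord_root_sub {ζ ξ : K} (hζ : ζ ^ m = 1) (hξ : ξ ^ m = 1) (h : ζ ≠ ξ) :
    Q.ord v (ζ - ξ) = 0 := by
  obtain ⟨a, ha, rfl⟩ := root_alg (K := K) hm hz hζ
  obtain ⟨b, hb, rfl⟩ := root_alg (K := K) hm hz hξ
  rw [← map_sub]
  apply Q.ord_alg
  intro h1
  exact h (by rw [sub_eq_zero.mp h1])

include hm in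
lemma root_ne_zero {ζ : K} (hζ : ζ ^ m = 1) : ζ ≠ 0 := by
  rintro rfl
  rw [zero_pow (by omega)] at hζ
  exact zero_ne_one hζ

variable {r : ℤ} (hr : 1 ≤ r)

include hm hz hr in
/-- two points have at most one class -/
lemma cls_unique {x y : K} (hy : y ≠ 0) (hoy : Q.ord v y = -r) {ζ ξ : K}
    (hζ : ζ ^ m = 1) (hξ : ξ ^ m = 1) (h1 : Q.G v (-r + 1) (x - ζ * y))
    (h2 : Q.G v (-r + 1) (x - ξ * y)) : ζ = ξ := by
  by_contra hne
  have h3 : Q.G v (-r + 1) ((x - ξ * y) - (x - ζ * y)) := G_sub h2 h1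
  have h4 : (x - ξ * y) - (x - ζ * y) = (ζ - ξ) * y := by ring
  rw [h4] at h3
  have h5 : ζ - ξ ≠ 0 := sub_ne_zero.mpr hne
  have h6 := h3 (mul_ne_zero h5 hy)
  rw [Q.ord_mul v _ _ h5 hy, ord_root_sub hm hz hζ hξ hne, hoy] at h6
  omega

include hm hz in
lemma G_base {x y : K} (hx : x ≠ 0) (hox : Q.ord v x = -r) (hy : y ≠ 0) (hoy : Q.ord v y = -r)
    {ζ : K} (hζ : ζ ^ m = 1) : Q.G v (-r) (x - ζ * y) := by
  apply G_sub
  · intro _
    rw [hox]
  · intro _
    rw [Q.ord_mul v _ _ (root_ne_zero hm hζ) hy, ord_root hm hz hζ, hoy]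
    omega

include hm hz in
/-- the class of two points exists -/
lemma cls_exists (hr : 1 ≤ r) {q : ℕ} (hq : 2 ≤ q) {x y : K} (hx : x ≠ 0) (hox : Q.ord v x = -r)
    (hy : y ≠ 0) (hoy : Q.ord v y = -r) (hu : Q.G v (-r) ((x ^ m - y ^ m) ^ q)) :
    ∃ ζ : K, ζ ^ m = 1 ∧ Q.G v (-r + 1) (x - ζ * y) := by
  classical
  by_contra hcon
  push Not at hcon
  have hne : ∀ ζ ∈ nthRootsFinset m (1 : K), x - ζ * y ≠ 0 := by
    intro ζ hζ h
    apply hcon ζ ((mem_roots' hm).mp hζ)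
    rw [h]
    exact Q.G_zero v _
  have hprod : x ^ m - y ^ m ≠ 0 := by
    rw [prod_roots hm hz]
    exact Finset.prod_ne_zero_iff.mpr hne
  have h1 : Q.ord v (x ^ m - y ^ m) = ∑ ζ ∈ nthRootsFinset m (1 : K), Q.ord v (x - ζ * y) := by
    rw [prod_roots hm hz, ord_prod _ _ hne]
  have h2 : ∑ ζ ∈ nthRootsFinset m (1 : K), Q.ord v (x - ζ * y) ≤
      ∑ _ζ ∈ nthRootsFinset m (1 : K), (-r) := by
    apply Finset.sum_le_sum
    intro ζ hζ
    have h3 := hcon ζ ((mem_roots' hm).mp hζ)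
    unfold G at h3
    push Not at h3
    have := h3.2
    omega
  rw [Finset.sum_const, card_roots hm hz, nsmul_eq_mul] at h2
  have h3 := hu (pow_ne_zero q hprod)
  rw [Q.ord_pow v hprod, h1] at h3
  have hq' : (2 : ℤ) ≤ q := by exact_mod_cast hq
  have hm' : (1 : ℤ) ≤ m := by exact_mod_cast hm
  have h4 : (m : ℤ) * -r ≤ -r := by nlinarith
  have h5 : ∑ ζ ∈ nthRootsFinset m (1 : K), Q.ord v (x - ζ * y) ≤ -r := h2.trans h4
  nlinarith

include hm hz in
/-- the order of the difference in the right class -/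
lemma ord_cls (hr : 1 ≤ r) {q : ℕ} {x y : K} (hx : x ≠ 0) (hox : Q.ord v x = -r)
    (hy : y ≠ 0) (hoy : Q.ord v y = -r) (hne : x ^ m - y ^ m ≠ 0) {ζ : K} (hζ : ζ ^ m = 1)
    (h : Q.G v (-r + 1) (x - ζ * y)) :
    (q : ℤ) * Q.ord v (x - ζ * y) = q * (m - 1) * r + Q.ord v ((x ^ m - y ^ m) ^ q) := by
  classical
  have hne' := hne
  rw [prod_roots hm hz, Finset.prod_ne_zero_iff] at hne'
  have h1 : Q.ord v (x ^ m - y ^ m) = ∑ ζ ∈ nthRootsFinset m (1 : K), Q.ord v (x - ζ * y) := by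
    rw [prod_roots hm hz, ord_prod _ _ hne']
  have hmem : ζ ∈ nthRootsFinset m (1 : K) := (mem_roots' hm).mpr hζ
  rw [← Finset.add_sum_erase _ _ hmem] at h1
  have h2 : ∑ ξ ∈ (nthRootsFinset m (1 : K)).erase ζ, Q.ord v (x - ξ * y) =
      ∑ _ξ ∈ (nthRootsFinset m (1 : K)).erase ζ, (-r) := by
    apply Finset.sum_congr rfl
    intro ξ hξ
    rw [Finset.mem_erase] at hξ
    have hξ' := (mem_roots' hm).mp hξ.2
    have h3 := G_base hm hz hx hox hy hoy hξ' (hne' ξ hξ.2)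
    by_contra h4
    have h5 : -r + 1 ≤ Q.ord v (x - ξ * y) := by omega
    exact hξ.1 (cls_unique hm hz hr hy hoy hξ' hζ (fun _ => h5) h)
  rw [h2, Finset.sum_const, Finset.card_erase_of_mem hmem, card_roots hm hz, nsmul_eq_mul] at h1
  rw [Q.ord_pow v hne, h1]
  push_cast [Nat.cast_sub hm]
  ring

end Roots

end PC

end Pool.Agent.P8H29.UI
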