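import Mathlib
import Pool.Agent.P8H29.UI.Core3

/-!
# Project UI: energies at a bad place
-/

namespace Pool.Agent.P8H29.UI

open Finset Polynomial

universe u v w

namespace PC

variable {p : ℕ} {k : Type u} {K : Type v} [Field k] [Field K] [Algebra k K] {Q : PC.{u, v, w} p k K}
  {v : Q.Pl}

/-- The energy of two points. -/
def En (Q : PC.{u, v, w} p k K) (q m : ℕ) (v : Q.Pl) (r : ℤ) (x y : K) : ℤ :=
  q * (m - 1) * r - (q - 1) * Q.ord v (x - y)

/-- Two points in the same class. -/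
def Same (Q : PC.{u, v, w} p k K) (v : Q.Pl) (r : ℤ) (x y : K) : Prop := Q.G v (-r + 1) (x - y)

lemma Same.symm {r : ℤ} {x y : K} (h : Q.Same v r x y) : Q.Same v r y x := by
  unfold Same at *
  rw [← neg_sub]
  exact G_neg h

lemma Same.trans {r : ℤ} {x y z : K} (h : Q.Same v r x y) (h' : Q.Same v r y z) :
    Q.Same v r x z := by
  unfold Same at *
  have : x - z = (x - y) + (y - z) := by ring
  rw [this]
  exact G_add h h'

lemma Same.refl {r : ℤ} (x : K) : Q.Same v r x x := by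
  unfold Same
  rw [sub_self]
  exact Q.G_zero v _

/-- Local data at a bad place. -/
structure Loc (Q : PC.{u, v, w} p k K) (q m : ℕ) (c : K) (R : Finset K) (v : Q.Pl) (r : ℤ) : Prop where
  hr : 1 ≤ r
  ne : ∀ x ∈ R, x ≠ 0
  o : ∀ x ∈ R, Q.ord v x = -r
  oc : Q.ord v c = -(q * m) * r

variable [Fact p.Prime] [CharP K p] {q e m : ℕ} {z : k} {c : K} {R : Finset K} {r : ℤ}

lemma two_le_q (hq : q = p ^ e) (he : 1 ≤ e) : 2 ≤ q := by
  have hp2 : 2 ≤ p := (Fact.out : p.Prime).two_le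
  rw [hq]
  calc 2 ≤ p := hp2
    _ = p ^ 1 := (pow_one p).symm
    _ ≤ p ^ e := Nat.pow_le_pow_right (by omega) he

lemma eq_iff (hq : q = p ^ e) (he : 1 ≤ e) (x y : K) :
    x ^ (q * m) + c = y ^ (q * m) + c ↔ x ^ m - y ^ m = 0 := by
  have h := frob_sub q e m hq x y c
  have hq2 := two_le_q (p := p) hq he
  constructor
  · intro h1
    rw [h1, sub_self] at h
    exact pow_eq_zero_iff (by omega) |>.mp h.symm
  · intro h1
    rw [h1, zero_pow (by omega)] at h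
    exact sub_eq_zero.mp h

/-- (a), (d): different classes -/
lemma ord_of_not_same (L : Q.Loc q m c R v r) {x y : K} (hx : x ∈ R)
    (hy : y ∈ R) (h : ¬ Q.Same v r x y) : Q.ord v (x - y) = -r := by
  unfold Same G at h
  push Not at h
  obtain ⟨h0, h1⟩ := h
  have h2 : Q.G v (-r) (x - y) := by
    apply G_sub
    · intro _
      rw [L.o x hx]
    · intro _
      rw [L.o y hy]
  have := h2 h0
  omega

lemma ord_ge (L : Q.Loc q m c R v r) {x y : K} (hx : x ∈ R)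
    (hy : y ∈ R) (h : x ≠ y) : -r ≤ Q.ord v (x - y) := by
  have h2 : Q.G v (-r) (x - y) := by
    apply G_sub
    · intro _
      rw [L.o x hx]
    · intro _
      rw [L.o y hy]
  exact h2 (sub_ne_zero.mpr h)

/-- (c) -/
lemma same_ne (hq : q = p ^ e) (he : 1 ≤ e) (hm : 2 ≤ m) (hz : IsPrimitiveRoot z m)
    (L : Q.Loc q m c R v r) {x y : K} (hy : y ∈ R) (hne : x ≠ y)
    (h : Q.Same v r x y) : x ^ (q * m) + c ≠ y ^ (q * m) + c := by
  intro h1
  rw [eq_iff hq he, prod_roots (by omega) hz, Finset.prod_eq_zero_iff] at h1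
  obtain ⟨ζ, hζ, h2⟩ := h1
  rw [mem_roots' (by omega)] at hζ
  have h3 : ζ = 1 := cls_unique (Q := Q) (v := v) (by omega) hz L.hr (L.ne y hy) (L.o y hy) hζ
    (one_pow m) (by rw [h2]; exact Q.G_zero v _) (by rw [one_mul]; exact h)
  rw [h3, one_mul] at h2
  exact hne (sub_eq_zero.mp h2)

/-- (b) -/
lemma En_same (hq : q = p ^ e) (he : 1 ≤ e) (hm : 2 ≤ m) (hz : IsPrimitiveRoot z m)
    (L : Q.Loc q m c R v r) {x y : K} (hx : x ∈ R) (hy : y ∈ R) (hne : x ≠ y)
    (h : Q.Same v r x y) :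
    (q : ℤ) * Q.En q m v r x y = Q.En q m v r (x ^ (q * m) + c) (y ^ (q * m) + c) := by
  have h1 := same_ne hq he hm hz L hy hne h
  have h2 : x ^ m - y ^ m ≠ 0 := fun h2 => h1 ((eq_iff hq he x y).mpr h2)
  have h3 := ord_cls (Q := Q) (v := v) (q := q) (by omega) hz L.hr (L.ne x hx) (L.o x hx) (L.ne y hy)
    (L.o y hy) h2 (one_pow m) (by rw [one_mul]; exact h)
  rw [one_mul] at h3
  unfold En
  rw [frob_sub q e m hq]
  linear_combination (-(q - 1) : ℤ) * h3

lemma En_not_same (L : Q.Loc q m c R v r) {x y : K} (hx : x ∈ R)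
    (hy : y ∈ R) (h : ¬ Q.Same v r x y) : Q.En q m v r x y = (q * m - 1) * r := by
  unfold En
  rw [ord_of_not_same L hx hy h]
  ring

lemma En_le (hq2 : 2 ≤ q) (L : Q.Loc q m c R v r) {x y : K} (hx : x ∈ R)
    (hy : y ∈ R) (h : x ≠ y) : Q.En q m v r x y ≤ (q * m - 1) * r := by
  have h1 := ord_ge L hx hy h
  have hq' : (2 : ℤ) ≤ q := by exact_mod_cast hq2
  unfold En
  nlinarith

/-- (e) -/
lemma En_nonneg (hq : q = p ^ e) (he : 1 ≤ e) (hm : 2 ≤ m) (hz : IsPrimitiveRoot z m)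
    (hR : ∀ x ∈ R, x ^ (q * m) + c ∈ R)
    (L : Q.Loc q m c R v r) : ∀ x ∈ R, ∀ y ∈ R, x ≠ y → 0 ≤ Q.En q m v r x y := by
  classical
  have hq2 := two_le_q (p := p) hq he
  have hq' : (2 : ℤ) ≤ q := by exact_mod_cast hq2
  have hm' : (2 : ℤ) ≤ m := by exact_mod_cast hm
  by_contra hcon
  push Not at hcon
  obtain ⟨x₁, hx₁, y₁, hy₁, h0, h1⟩ := hcon
  have hne : ((R ×ˢ R).filter fun z : K × K => z.1 ≠ z.2).Nonempty :=
    ⟨(x₁, y₁), by simp [hx₁, hy₁, h0]⟩
  obtain ⟨⟨x, y⟩, hxy, hmin⟩ := Finset.exists_min_image _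
    (fun z : K × K => Q.En q m v r z.1 z.2) hne
  rw [Finset.mem_filter, Finset.mem_product] at hxy
  obtain ⟨⟨hx, hy⟩, hxyne⟩ := hxy
  simp only at hx hy hxyne hmin
  have hneg : Q.En q m v r x y < 0 :=
    (hmin (x₁, y₁) (by simp [hx₁, hy₁, h0])).trans_lt h1
  by_cases hs : Q.Same v r x y
  · have h2 := En_same hq he hm hz L hx hy hxyne hs
    have h3 := same_ne hq he hm hz L hy hxyne hs
    have h4 := hmin (x ^ (q * m) + c, y ^ (q * m) + c) (by simp [hR x hx, hR y hy, h3])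
    simp only at h4
    rw [← h2] at h4
    nlinarith
  · rw [En_not_same L hx hy hs] at hneg
    have : 0 ≤ ((q : ℤ) * m - 1) * r := mul_nonneg (by nlinarith) (by linarith [L.hr])
    omega

/-- at a place where all points are in one class the energies vanish -/
lemma En_const (hq : q = p ^ e) (he : 1 ≤ e) (hm : 2 ≤ m) (hz : IsPrimitiveRoot z m)
    (hR : ∀ x ∈ R, x ^ (q * m) + c ∈ R)
    (L : Q.Loc q m c R v r) (hs : ∀ x ∈ R, ∀ y ∈ R, Q.Same v r x y) :
    ∀ x ∈ R, ∀ y ∈ R, x ≠ y → Q.En q m v r x y ≤ 0 := by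
  classical
  have hq2 := two_le_q (p := p) hq he
  have hq' : (2 : ℤ) ≤ q := by exact_mod_cast hq2
  by_contra hcon
  push Not at hcon
  obtain ⟨x₁, hx₁, y₁, hy₁, h0, h1⟩ := hcon
  have hne : ((R ×ˢ R).filter fun z : K × K => z.1 ≠ z.2).Nonempty :=
    ⟨(x₁, y₁), by simp [hx₁, hy₁, h0]⟩
  obtain ⟨⟨x, y⟩, hxy, hmax⟩ := Finset.exists_max_image _
    (fun z : K × K => Q.En q m v r z.1 z.2) hne
  rw [Finset.mem_filter, Finset.mem_product] at hxy
  obtain ⟨⟨hx, hy⟩, hxyne⟩ := hxy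
  simp only at hx hy hxyne hmax
  have hpos : 0 < Q.En q m v r x y :=
    h1.trans_le (hmax (x₁, y₁) (by simp [hx₁, hy₁, h0]))
  have h2 := En_same hq he hm hz L hx hy hxyne (hs x hx y hy)
  have h3 := same_ne hq he hm hz L hy hxyne (hs x hx y hy)
  have h4 := hmax (x ^ (q * m) + c, y ^ (q * m) + c) (by simp [hR x hx, hR y hy, h3])
  simp only at h4
  rw [← h2] at h4
  nlinarith

end PC

end Pool.Agent.P8H29.UI
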