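import Mathlib
import Pool.Agent.P8H29.UI.Core4

/-!
# Project UI: the total energy at a bad place
-/

namespace Pool.Agent.P8H29.UI

open Finset Polynomial

universe u v w

namespace PC

variable {p : ℕ} {k : Type u} {K : Type v} [Field k] [Field K] [Algebra k K] {Q : PC.{u, v, w} p k K}
  {v : Q.Pl} [Fact p.Prime] [CharP K p] {q e m : ℕ} {z : k} {c : K} {R : Finset K} {r : ℤ}

/-- the class function -/
lemma exists_cls (hq : q = p ^ e) (he : 1 ≤ e) (hm : 2 ≤ m) (hz : IsPrimitiveRoot z m)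
    (hR : ∀ x ∈ R, x ^ (q * m) + c ∈ R) (L : Q.Loc q m c R v r) :
    ∃ cl : K → Fin m, ∀ x ∈ R, ∀ y ∈ R, cl x = cl y ↔ Q.Same v r x y := by
  classical
  have hq2 := two_le_q (p := p) hq he
  rcases R.eq_empty_or_nonempty with hE | ⟨x₀, hx₀⟩
  · subst hE
    exact ⟨fun _ => ⟨0, by omega⟩, by simp⟩
  have hex : ∀ x ∈ R, ∃ ζ : K, ζ ^ m = 1 ∧ Q.G v (-r + 1) (x - ζ * x₀) := by
    intro x hx
    apply cls_exists (Q := Q) (v := v) (by omega) hz L.hr hq2 (L.ne x hx) (L.o x hx) (L.ne x₀ hx₀)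
      (L.o x₀ hx₀)
    rw [← frob_sub q e m hq x x₀ c]
    apply G_sub
    · intro _
      rw [L.o _ (hR x hx)]
    · intro _
      rw [L.o _ (hR x₀ hx₀)]
  let g : K → K := fun x => if h : ∃ ζ : K, ζ ^ m = 1 ∧ Q.G v (-r + 1) (x - ζ * x₀) then
    h.choose else 1
  have hg : ∀ x ∈ R, (g x) ^ m = 1 ∧ Q.G v (-r + 1) (x - g x * x₀) := by
    intro x hx
    have h := hex x hx
    simp only [g, dif_pos h]
    exact h.choose_spec
  have hgm : ∀ x, g x ∈ nthRootsFinset m (1 : K) := by
    intro x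
    rw [mem_roots' (by omega)]
    by_cases h : ∃ ζ : K, ζ ^ m = 1 ∧ Q.G v (-r + 1) (x - ζ * x₀)
    · simp only [g, dif_pos h]
      exact h.choose_spec.1
    · simp only [g, dif_neg h, one_pow]
  let E := Finset.equivFinOfCardEq (card_roots (K := K) (by omega : 1 ≤ m) hz)
  refine ⟨fun x => E ⟨g x, hgm x⟩, ?_⟩
  intro x hx y hy
  rw [E.apply_eq_iff_eq, Subtype.mk.injEq]
  constructor
  · intro h
    have h1 := (hg x hx).2
    have h2 := (hg y hy).2
    rw [← h] at h2
    have h3 := G_sub h1 h2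
    have h4 : (x - g x * x₀) - (y - g x * x₀) = x - y := by ring
    rw [h4] at h3
    exact h3
  · intro h
    have h1 := (hg x hx).2
    have h3 : Q.G v (-r + 1) (y - g x * x₀) := by
      have h4 : y - g x * x₀ = (x - g x * x₀) - (x - y) := by ring
      rw [h4]
      exact G_sub h1 h
    exact cls_unique (Q := Q) (v := v) (by omega) hz L.hr (L.ne x₀ hx₀) (L.o x₀ hx₀) (hg x hx).1
      (hg y hy).1 h3 (hg y hy).2

/-- The total energy. -/
lemma sum_En_le (hENG : S_ENG.{v}) (hq : q = p ^ e) (he : 1 ≤ e) (hm : 2 ≤ m)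
    (hz : IsPrimitiveRoot z m) (hR : ∀ x ∈ R, x ^ (q * m) + c ∈ R)
    (hinj : ∀ x ∈ R, ∀ y ∈ R, x ^ (q * m) + c = y ^ (q * m) + c → x = y)
    (L : Q.Loc q m c R v r) [DecidableEq K] :
    ∑ x ∈ R, ∑ y ∈ R, (if x = y then 0 else Q.En q m v r x y) ≤
      q * (m - 1) * r * (R.card : ℤ) ^ 2 := by
  classical
  have hq2 := two_le_q (p := p) hq he
  have hq' : (2 : ℝ) ≤ q := by exact_mod_cast hq2
  have hm' : (2 : ℝ) ≤ m := by exact_mod_cast hm
  have hr' : (1 : ℝ) ≤ r := by exact_mod_cast L.hr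
  obtain ⟨cl, hcl⟩ := exists_cls hq he hm hz hR L
  set F : K → K := fun x => x ^ (q * m) + c with hF
  have hFm : ∀ j : ℕ, ∀ x ∈ R, F^[j] x ∈ R := by
    intro j
    induction j with
    | zero => intro x hx; exact hx
    | succ j ih =>
      intro x hx
      rw [Function.iterate_succ_apply']
      exact hR _ (ih x hx)
  have hFi : ∀ j : ℕ, ∀ x ∈ R, ∀ y ∈ R, F^[j] x = F^[j] y → x = y := by
    intro j
    induction j with
    | zero => intro x _ y _ h; exact h
    | succ j ih =>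
      intro x hx y hy h
      rw [Function.iterate_succ_apply', Function.iterate_succ_apply'] at h
      exact ih x hx y hy (hinj _ (hFm j x hx) _ (hFm j y hy) h)
  set A : ℝ := ((q : ℝ) * m - 1) * r with hA
  let G' : ℕ → K → K → ℝ := fun j x y => if x = y then A else
    A - (Q.En q m v r (F^[j] x) (F^[j] y) : ℝ)
  have hA0 : 0 ≤ A := mul_nonneg (by nlinarith) (by linarith)
  have hG0 : ∀ j, ∀ x ∈ R, ∀ y ∈ R, 0 ≤ G' j x y := by
    intro j x hx y hy
    by_cases h : x = y
    · simp only [G', if_pos h]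
      exact hA0
    · simp only [G', if_neg h]
      have h1 := En_le (Q := Q) (v := v) hq2 L (hFm j x hx) (hFm j y hy)
        (fun h1 => h (hFi j x hx y hy h1))
      have h2 : (Q.En q m v r (F^[j] x) (F^[j] y) : ℝ) ≤ (((q * m - 1) * r : ℤ) : ℝ) := by
        exact_mod_cast h1
      push_cast at h2
      rw [hA]
      linarith
  have hrec : ∀ j, ∀ x ∈ R, ∀ y ∈ R, G' j x y =
      if cl (F^[j] x) = cl (F^[j] y) then A * (1 - 1 / q) + G' (j + 1) x y / q else 0 := by
    intro j x hx y hy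
    by_cases h : x = y
    · subst h
      simp only [G', if_true]
      field_simp
      ring
    · have hne : F^[j] x ≠ F^[j] y := fun h1 => h (hFi j x hx y hy h1)
      simp only [G', if_neg h]
      by_cases hs : cl (F^[j] x) = cl (F^[j] y)
      · rw [if_pos hs]
        have hs' := (hcl _ (hFm j x hx) _ (hFm j y hy)).mp hs
        have h1 := En_same (Q := Q) (v := v) hq he hm hz L (hFm j x hx) (hFm j y hy) hne hs'
        rw [Function.iterate_succ_apply', Function.iterate_succ_apply']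
        have h2 : (q : ℝ) * (Q.En q m v r (F^[j] x) (F^[j] y) : ℝ) =
            (Q.En q m v r (F (F^[j] x)) (F (F^[j] y)) : ℝ) := by
          exact_mod_cast h1
        rw [← h2]
        field_simp
        ring
      · rw [if_neg hs]
        have hs' : ¬ Q.Same v r (F^[j] x) (F^[j] y) := fun h1 =>
          hs ((hcl _ (hFm j x hx) _ (hFm j y hy)).mpr h1)
        rw [En_not_same L (hFm j x hx) (hFm j y hy) hs', hA]
        push_cast
        ring
  have key := hENG K R m q A (fun j x => cl (F^[j] x)) G' (by omega) hq' hA0 hG0 hrec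
  have h1 : A * ((q : ℝ) - 1) / (q * m - 1) = (q - 1) * r := by
    have : (q : ℝ) * m - 1 ≠ 0 := by
      have : (4 : ℝ) ≤ q * m := by nlinarith
      linarith
    rw [hA]
    field_simp
  rw [h1] at key
  have h2 : ∑ x ∈ R, ∑ y ∈ R, G' 0 x y =
      A * (R.card : ℝ) ^ 2 - ((∑ x ∈ R, ∑ y ∈ R, (if x = y then 0 else Q.En q m v r x y) : ℤ) : ℝ) := by
    have h3 : ∀ x y, G' 0 x y = A - ((if x = y then 0 else Q.En q m v r x y : ℤ) : ℝ) := by
      intro x y
      by_cases h : x = y
      · simp [G', h]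
      · simp [G', h]
    simp only [h3, Finset.sum_sub_distrib, Finset.sum_const, nsmul_eq_mul]
    push_cast
    ring
  rw [h2, hA] at key
  have h4 : ((∑ x ∈ R, ∑ y ∈ R, (if x = y then 0 else Q.En q m v r x y) : ℤ) : ℝ) ≤
      ((q * (m - 1) * r * (R.card : ℤ) ^ 2 : ℤ) : ℝ) := by
    push_cast
    push_cast at key
    nlinarith
  exact_mod_cast h4

end PC

end Pool.Agent.P8H29.UI
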