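import Mathlib
import Pool.Agent.P8H29.UI.Core5

/-!
# Project UI: global estimates
-/

namespace Pool.Agent.P8H29.UI

open Finset Polynomial

universe u v w

namespace PC

variable {p : ℕ} {k : Type u} {K : Type v} [Field k] [Field K] [Algebra k K] {Q : PC.{u, v, w} p k K}
  [Fact p.Prime] [CharP K p] {q e m : ℕ} {z : k} {c : K} {R : Finset K}

/-- the bad places -/
lemma exists_bad (Q : PC.{u, v, w} p k K) (hc : ∀ a : k, algebraMap k K a ≠ c) :
    ∃ S : Finset Q.Pl, S.Nonempty ∧ ∀ v, v ∈ S ↔ Q.ord v c < 0 := by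
  classical
  have hc0 : c ≠ 0 := fun h => hc 0 (by rw [h, map_zero])
  refine ⟨(Q.fin c hc0).toFinset.filter fun v => Q.ord v c < 0, ?_, ?_⟩
  · by_contra hcon
    rw [Finset.not_nonempty_iff_eq_empty] at hcon
    obtain ⟨a, ha⟩ := Q.const c hc0 (by
      intro v
      by_contra h
      push Not at h
      have : v ∈ (∅ : Finset Q.Pl) := by
        rw [← hcon, Finset.mem_filter, Set.Finite.mem_toFinset]
        exact ⟨by simpa using h.ne, h⟩
      simp at this)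
    exact hc a ha
  · intro v
    rw [Finset.mem_filter, Set.Finite.mem_toFinset]
    constructor
    · exact fun h => h.2
    · exact fun h => ⟨by simpa using h.ne, h⟩

lemma mk_loc (hq2 : 2 ≤ q) (hm : 1 ≤ m) (hc0 : c ≠ 0) (hR : ∀ x ∈ R, x ^ (q * m) + c ∈ R)
    {v : Q.Pl} (hv : Q.ord v c < 0) {x₀ : K} (hx₀ : x₀ ∈ R) :
    Q.Loc q m c R v (-Q.ord v x₀) := by
  have hd : 2 ≤ q * m := by nlinarith
  have h := bad_ord (Q := Q) (v := v) hd hc0 hR hv
  have h1 := (h x₀ hx₀).2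
  have hd' : (2 : ℤ) ≤ ((q * m : ℕ) : ℤ) := by exact_mod_cast hd
  refine ⟨?_, fun x hx => (h x hx).1, ?_, ?_⟩
  · by_contra hcon
    have : 0 ≤ ((q * m : ℕ) : ℤ) * Q.ord v x₀ := mul_nonneg (by omega) (by omega)
    omega
  · intro x hx
    have h2 := (h x hx).2
    have h3 : ((q * m : ℕ) : ℤ) * (Q.ord v x - Q.ord v x₀) = 0 := by linear_combination h2 - h1
    rcases mul_eq_zero.mp h3 with h4 | h4
    · omega
    · omega
  · rw [← h1]
    push_cast
    ring

/-- Setting for the global estimates. -/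
structure Glo (Q : PC.{u, v, w} p k K) (q e m : ℕ) (z : k) (c : K) (R : Finset K) (x₀ : K)
    (S : Finset Q.Pl) : Prop where
  hq : q = p ^ e
  he : 1 ≤ e
  hm : 2 ≤ m
  hz : IsPrimitiveRoot z m
  hc0 : c ≠ 0
  hR : ∀ x ∈ R, x ^ (q * m) + c ∈ R
  hx₀ : x₀ ∈ R
  hS : ∀ v, v ∈ S ↔ Q.ord v c < 0
  hne : S.Nonempty

variable {x₀ : K} {S : Finset Q.Pl}

lemma Glo.loc (H : Glo Q q e m z c R x₀ S) {v : Q.Pl} (hv : v ∈ S) :
    Q.Loc q m c R v (-Q.ord v x₀) :=
  mk_loc (two_le_q (p := p) H.hq H.he) (by have := H.hm; omega) H.hc0 H.hR ((H.hS v).mp hv) H.hx₀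

lemma Glo.good (H : Glo Q q e m z c R x₀ S) {v : Q.Pl} (hv : v ∉ S) : Q.G v 0 c := by
  intro _
  rw [H.hS] at hv
  omega

/-- the height of the points -/
def h0 (Q : PC.{u, v, w} p k K) (S : Finset Q.Pl) (x₀ : K) : ℤ := ∑ v ∈ S, Q.wt v * (-Q.ord v x₀)

lemma Glo.card_le_h0 (H : Glo Q q e m z c R x₀ S) : (S.card : ℤ) ≤ h0 Q S x₀ := by
  unfold h0
  rw [Finset.card_eq_sum_ones]
  push_cast
  apply Finset.sum_le_sum
  intro v hv
  have h1 := (H.loc hv).hr
  have h2 := Q.wt_one v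
  nlinarith

lemma Glo.h0_pos (H : Glo Q q e m z c R x₀ S) : 1 ≤ h0 Q S x₀ := by
  have h1 := H.card_le_h0
  have h2 := Finset.card_pos.mpr H.hne
  have : (1 : ℤ) ≤ S.card := by exact_mod_cast h2
  omega

/-- Sum of the energies of a pair. -/
lemma Glo.sum_En_ge (H : Glo Q q e m z c R x₀ S) {x y : K} (hx : x ∈ R) (hy : y ∈ R) (h : x ≠ y) :
    q * (m - 1) * h0 Q S x₀ ≤ ∑ v ∈ S, Q.wt v * Q.En q m v (-Q.ord v x₀) x y := by
  have hq2 := two_le_q (p := p) H.hq H.he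
  have hm := H.hm
  have hq' : (2 : ℤ) ≤ q := by exact_mod_cast hq2
  have h1 := Q.prod_le (sub_ne_zero.mpr h) S (by
    intro v hv
    have h2 := good_int (Q := Q) (v := v) (d := q * m) (by nlinarith) H.hR (H.good hv)
    exact G_sub (h2 x hx) (h2 y hy) (sub_ne_zero.mpr h))
  have h2 : ∑ v ∈ S, Q.wt v * Q.En q m v (-Q.ord v x₀) x y =
      q * (m - 1) * h0 Q S x₀ - (q - 1) * ∑ v ∈ S, Q.wt v * Q.ord v (x - y) := by
    unfold En h0
    rw [Finset.mul_sum, Finset.mul_sum, ← Finset.sum_sub_distrib]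
    apply Finset.sum_congr rfl
    intro v _
    ring
  rw [h2]
  nlinarith

/-- Two different points are in different classes at some bad place. -/
lemma Glo.exists_not_same (H : Glo Q q e m z c R x₀ S) {x y : K} (hx : x ∈ R) (hy : y ∈ R)
    (h : x ≠ y) : ∃ v ∈ S, ¬ Q.Same v (-Q.ord v x₀) x y := by
  by_contra hcon
  push Not at hcon
  have hq2 := two_le_q (p := p) H.hq H.he
  have hm := H.hm
  have hq' : (2 : ℤ) ≤ q := by exact_mod_cast hq2
  have hm' : (2 : ℤ) ≤ m := by exact_mod_cast hm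
  have h1 := H.sum_En_ge hx hy h
  have h2 : ∀ v ∈ S, Q.wt v * ((q : ℤ) * Q.En q m v (-Q.ord v x₀) x y) ≤
      Q.wt v * ((q * m - 1) * -Q.ord v x₀) := by
    intro v hv
    have L := H.loc hv
    have h3 := En_same (Q := Q) (v := v) H.hq H.he hm H.hz L hx hy h (hcon v hv)
    have h4 := same_ne (Q := Q) (v := v) H.hq H.he hm H.hz L hy h (hcon v hv)
    have h5 := En_le (Q := Q) (v := v) hq2 L (H.hR x hx) (H.hR y hy) h4
    rw [h3]
    exact mul_le_mul_of_nonneg_left h5 (zero_le_one.trans (Q.wt_one v))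
  have h3 := Finset.sum_le_sum h2
  have h4 : ∑ v ∈ S, Q.wt v * ((q : ℤ) * Q.En q m v (-Q.ord v x₀) x y) =
      q * ∑ v ∈ S, Q.wt v * Q.En q m v (-Q.ord v x₀) x y := by
    rw [Finset.mul_sum]
    apply Finset.sum_congr rfl
    intro v _
    ring
  have h5 : ∑ v ∈ S, Q.wt v * ((q * m - 1) * -Q.ord v x₀) = (q * m - 1) * h0 Q S x₀ := by
    unfold h0
    rw [Finset.mul_sum]
    apply Finset.sum_congr rfl
    intro v _
    ring
  rw [h4, h5] at h3
  have h6 := H.h0_pos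
  have h7 : (q : ℤ) * (q * (m - 1) * h0 Q S x₀) ≤ (q * m - 1) * h0 Q S x₀ :=
    (mul_le_mul_of_nonneg_left h1 (by omega)).trans h3
  have h8 : ((q : ℤ) * (q * (m - 1)) - (q * m - 1)) * h0 Q S x₀ ≤ 0 := by linarith
  have h9 : 1 ≤ (q : ℤ) * (q * (m - 1)) - (q * m - 1) := by nlinarith [mul_nonneg (by linarith : (0:ℤ) ≤ q - 2) (by linarith : (0:ℤ) ≤ m - 2), mul_nonneg (mul_nonneg (by linarith : (0:ℤ) ≤ q) (by linarith : (0:ℤ) ≤ q - 2)) (by linarith : (0:ℤ) ≤ m - 1)]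
  nlinarith

/-- The number of points is bounded in terms of the number of bad places. -/
lemma Glo.card_le (H : Glo Q q e m z c R x₀ S) : R.card ≤ m ^ S.card := by
  classical
  have h1 : ∀ v : S, ∃ cl : K → Fin m, ∀ x ∈ R, ∀ y ∈ R, cl x = cl y ↔
      Q.Same v (-Q.ord v x₀) x y := fun v => exists_cls H.hq H.he H.hm H.hz H.hR (H.loc v.2)
  choose cl hcl using h1
  have h2 : R.card ≤ (Finset.univ : Finset (S → Fin m)).card := by
    apply Finset.card_le_card_of_injOn (fun x v => cl v x)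
    · intro x _
      simp
    · intro x hx y hy hxy
      by_contra hne
      obtain ⟨v, hv, hs⟩ := H.exists_not_same hx hy hne
      apply hs
      rw [← hcl ⟨v, hv⟩ x hx y hy]
      exact congrFun hxy ⟨v, hv⟩
  rw [Finset.card_univ, Fintype.card_fun, Fintype.card_fin, Fintype.card_coe] at h2
  exact h2

lemma Glo.card_le' (H : Glo Q q e m z c R x₀ S) : R.card ≤ m ^ (h0 Q S x₀).toNat := by
  refine H.card_le.trans (Nat.pow_le_pow_right (by have := H.hm; omega) ?_)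
  have := H.card_le_h0
  omega

end PC

end Pool.Agent.P8H29.UI
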