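import Mathlib
import Pool.Agent.P8H29.UI.Core6

/-!
# Project UI: the derivation and the main inequality
-/

namespace Pool.Agent.P8H29.UI

open Finset Polynomial

universe u v w

namespace PC

variable {p : ℕ} {k : Type u} {K : Type v} [Field k] [Field K] [Algebra k K] {Q : PC.{u, v, w} p k K}
  [Fact p.Prime] [CharP K p] {q e m : ℕ} {z : k} {c : K} {R : Finset K} {x₀ : K} {S : Finset Q.Pl}

lemma p_dvd (hq : q = p ^ e) (he : 1 ≤ e) : p ∣ q * m := by
  rw [hq]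
  exact Dvd.dvd.mul_right (dvd_pow_self p (by omega)) m

lemma Glo.D_eq (H : Glo Q q e m z c R x₀ S) (x : K) : Q.D (x ^ (q * m) + c) = Q.D c := by
  rw [map_add, Q.D_pow_eq_zero x _ (p_dvd H.hq H.he), zero_add]

/-- at a bad place -/
lemma Glo.bd_bad (H : Glo Q q e m z c R x₀ S) (hD : Q.D c ≠ 0)
    (hsur : ∀ y ∈ R, ∃ x ∈ R, x ^ (q * m) + c = y) {v : Q.Pl} (hv : v ∈ S) :
    -(2 * q) * -Q.ord v x₀ ≤ q * (Q.ord v (Q.D c) + Q.ls v) := by
  have L := H.loc hv
  obtain ⟨x, hx, hxy⟩ := hsur x₀ H.hx₀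
  have h1 : Q.D x₀ = Q.D c := by rw [← hxy, H.D_eq]
  have h2 := Q.G_D (v := v) (a := Q.ord v x₀) x₀ (by rw [h1]; exact hD) (fun _ => le_rfl)
  rw [h1] at h2
  have h3 := L.hr
  have h4 : (0 : ℤ) ≤ q := by positivity
  nlinarith

/-- at a bad place with two classes -/
lemma Glo.bd_two (H : Glo Q q e m z c R x₀ S) (hD : Q.D c ≠ 0)
    (hinj : ∀ x ∈ R, ∀ y ∈ R, x ^ (q * m) + c = y ^ (q * m) + c → x = y)
    (hsur : ∀ y ∈ R, ∃ x ∈ R, x ^ (q * m) + c = y) {v : Q.Pl} (hv : v ∈ S) {x y : K}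
    (hx : x ∈ R) (hy : y ∈ R) (hs : ¬ Q.Same v (-Q.ord v x₀) x y) :
    (q * (m - 1) - 2) * -Q.ord v x₀ ≤ q * (Q.ord v (Q.D c) + Q.ls v) := by
  have L := H.loc hv
  have hq2 := two_le_q (p := p) H.hq H.he
  have hm := H.hm
  have hq' : (2 : ℤ) ≤ q := by exact_mod_cast hq2
  have hne : x ≠ y := by
    rintro rfl
    exact hs (Same.refl x)
  obtain ⟨a, ha, hax⟩ := hsur x hx
  obtain ⟨b, hb, hby⟩ := hsur y hy
  -- `q` divides the order
  have h1 : x - y = (a ^ m - b ^ m) ^ q := by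
    rw [← hax, ← hby]
    exact frob_sub q e m H.hq a b c
  have h2 : a ^ m - b ^ m ≠ 0 := by
    intro h
    rw [h, zero_pow (by omega)] at h1
    exact hne (sub_eq_zero.mp h1)
  have h3 : -(-Q.ord v x₀) = q * Q.ord v (a ^ m - b ^ m) := by
    rw [← Q.ord_pow v h2, ← h1]
    exact (ord_of_not_same L hx hy hs).symm
  have h4 : (q : ℤ) ≤ -Q.ord v x₀ := by
    have h5 := L.hr
    have h6 : Q.ord v (a ^ m - b ^ m) < 0 := by
      by_contra hcon
      push Not at hcon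
      have : 0 ≤ (q : ℤ) * Q.ord v (a ^ m - b ^ m) := mul_nonneg (by omega) hcon
      omega
    nlinarith
  -- the class
  have hfG : Q.G v (-(-Q.ord v x₀)) ((x ^ m - y ^ m) ^ q) := by
    rw [← frob_sub q e m H.hq x y c]
    apply G_sub
    · intro _
      rw [L.o _ (H.hR x hx)]
    · intro _
      rw [L.o _ (H.hR y hy)]
  obtain ⟨ζ, hζ, hC⟩ := cls_exists (Q := Q) (v := v) (by omega) H.hz L.hr hq2 (L.ne x hx) (L.o x hx)
    (L.ne y hy) (L.o y hy) hfG
  have hζ1 : ζ ≠ 1 := by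
    rintro rfl
    rw [one_mul] at hC
    exact hs hC
  have hmne : x ^ m - y ^ m ≠ 0 := by
    intro h
    exact hne (hinj x hx y hy ((eq_iff H.hq H.he x y).mpr h))
  have h5 := ord_cls (Q := Q) (v := v) (q := q) (by omega) H.hz L.hr (L.ne x hx) (L.o x hx)
    (L.ne y hy) (L.o y hy) hmne hζ hC
  have h6 := hfG (pow_ne_zero q hmne)
  obtain ⟨α, hα, hαζ⟩ := root_alg (K := K) (by omega : 1 ≤ m) H.hz hζ
  have h7 : Q.D (x - ζ * y) = (1 - ζ) * Q.D c := by
    rw [map_sub, ← hαζ, Q.D_alg_mul]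
    have e1 : Q.D x = Q.D c := by rw [← hax, H.D_eq]
    have e2 : Q.D y = Q.D c := by rw [← hby, H.D_eq]
    rw [e1, e2]
    ring
  have h8 : (1 : K) - ζ ≠ 0 := sub_ne_zero.mpr (Ne.symm hζ1)
  have h9 : Q.ord v (1 - ζ) = 0 :=
    ord_root_sub (by omega) H.hz (one_pow m) hζ (Ne.symm hζ1)
  have h10 := Q.G_D (v := v) (a := Q.ord v (x - ζ * y)) (x - ζ * y)
    (by rw [h7]; exact mul_ne_zero h8 hD) (fun _ => le_rfl)
  rw [h7, Q.ord_mul v _ _ h8 hD, h9, zero_add] at h10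
  nlinarith

lemma Glo.bd_good (H : Glo Q q e m z c R x₀ S) (hD : Q.D c ≠ 0) {v : Q.Pl} (hv : v ∉ S) :
    0 ≤ Q.ord v (Q.D c) + Q.ls v := Q.G_D0 c hD (H.good hv)

/-- The weight of the places with one class. -/
lemma Glo.const_weight (hENG : S_ENG.{v}) (H : Glo Q q e m z c R x₀ S)
    (hinj : ∀ x ∈ R, ∀ y ∈ R, x ^ (q * m) + c = y ^ (q * m) + c → x = y) (A : Finset Q.Pl)
    (hA : A ⊆ S) (hA2 : ∀ v ∈ A, ∀ x ∈ R, ∀ y ∈ R, Q.Same v (-Q.ord v x₀) x y) :
    (R.card : ℤ) * ∑ v ∈ A, Q.wt v * (-Q.ord v x₀) ≤ h0 Q S x₀ := by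
  classical
  have hq2 := two_le_q (p := p) H.hq H.he
  have hm := H.hm
  have hq' : (2 : ℤ) ≤ q := by exact_mod_cast hq2
  have hm' : (2 : ℤ) ≤ m := by exact_mod_cast hm
  set N : ℤ := (R.card : ℤ) with hN
  have hN1 : 1 ≤ N := by
    have : 0 < R.card := Finset.card_pos.mpr ⟨x₀, H.hx₀⟩
    omega
  set W := ∑ v ∈ A, Q.wt v * (-Q.ord v x₀) with hW
  -- the energy from below
  have h1 : N * (N - 1) * (q * (m - 1) * h0 Q S x₀) ≤
      ∑ v ∈ S, Q.wt v * ∑ x ∈ R, ∑ y ∈ R, (if x = y then 0 else Q.En q m v (-Q.ord v x₀) x y) := by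
    have h2 : ∑ v ∈ S, Q.wt v * ∑ x ∈ R, ∑ y ∈ R,
        (if x = y then 0 else Q.En q m v (-Q.ord v x₀) x y) =
        ∑ x ∈ R, ∑ y ∈ R, (if x = y then 0 else
          ∑ v ∈ S, Q.wt v * Q.En q m v (-Q.ord v x₀) x y) := by
      simp only [Finset.mul_sum]
      rw [Finset.sum_comm]
      apply Finset.sum_congr rfl
      intro x _
      rw [Finset.sum_comm]
      apply Finset.sum_congr rfl
      intro y _
      by_cases h : x = y
      · simp [h]
      · simp [h]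
    rw [h2]
    have h3 : ∑ x ∈ R, ∑ y ∈ R, (if x = y then (0 : ℤ) else q * (m - 1) * h0 Q S x₀) =
        N * (N - 1) * (q * (m - 1) * h0 Q S x₀) := by
      have h4 : ∀ x ∈ R, ∑ y ∈ R, (if x = y then (0 : ℤ) else q * (m - 1) * h0 Q S x₀) =
          (N - 1) * (q * (m - 1) * h0 Q S x₀) := by
        intro x hx
        rw [← Finset.add_sum_erase _ _ hx, if_pos rfl, zero_add]
        rw [Finset.sum_congr rfl (g := fun _ => (q : ℤ) * (m - 1) * h0 Q S x₀) (fun y hy => by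
          rw [if_neg (Ne.symm (Finset.ne_of_mem_erase hy))])]
        rw [Finset.sum_const, Finset.card_erase_of_mem hx, nsmul_eq_mul]
        have : ((R.card - 1 : ℕ) : ℤ) = N - 1 := by
          rw [hN]
          have : 1 ≤ R.card := Finset.card_pos.mpr ⟨x₀, H.hx₀⟩
          push_cast [Nat.cast_sub this]
          ring
        rw [this]
      rw [Finset.sum_congr rfl h4, Finset.sum_const, nsmul_eq_mul]
      ring
    rw [← h3]
    apply Finset.sum_le_sum
    intro x hx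
    apply Finset.sum_le_sum
    intro y hy
    by_cases h : x = y
    · simp [h]
    · rw [if_neg h, if_neg h]
      exact H.sum_En_ge hx hy h
  -- from above
  have h2 : ∑ v ∈ S, Q.wt v * ∑ x ∈ R, ∑ y ∈ R,
      (if x = y then 0 else Q.En q m v (-Q.ord v x₀) x y) ≤
      q * (m - 1) * N ^ 2 * (h0 Q S x₀ - W) := by
    rw [← Finset.sum_sdiff hA]
    have h3 : ∑ v ∈ A, Q.wt v * ∑ x ∈ R, ∑ y ∈ R,
        (if x = y then 0 else Q.En q m v (-Q.ord v x₀) x y) ≤ 0 := by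
      apply Finset.sum_nonpos
      intro v hv
      apply mul_nonpos_of_nonneg_of_nonpos (zero_le_one.trans (Q.wt_one v))
      apply Finset.sum_nonpos
      intro x hx
      apply Finset.sum_nonpos
      intro y hy
      by_cases h : x = y
      · simp [h]
      · rw [if_neg h]
        exact En_const (Q := Q) (v := v) H.hq H.he hm H.hz H.hR (H.loc (hA hv)) (hA2 v hv) x hx y hy
          h
    have h4 : ∑ v ∈ S \ A, Q.wt v * ∑ x ∈ R, ∑ y ∈ R,
        (if x = y then 0 else Q.En q m v (-Q.ord v x₀) x y) ≤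
        ∑ v ∈ S \ A, Q.wt v * (q * (m - 1) * (-Q.ord v x₀) * N ^ 2) := by
      apply Finset.sum_le_sum
      intro v hv
      apply mul_le_mul_of_nonneg_left _ (zero_le_one.trans (Q.wt_one v))
      exact sum_En_le (Q := Q) (v := v) hENG H.hq H.he hm H.hz H.hR hinj
        (H.loc (Finset.mem_sdiff.mp hv).1)
    have h5 : ∑ v ∈ S \ A, Q.wt v * (q * (m - 1) * (-Q.ord v x₀) * N ^ 2) =
        q * (m - 1) * N ^ 2 * (h0 Q S x₀ - W) := by
      have h6 : h0 Q S x₀ = ∑ v ∈ S \ A, Q.wt v * (-Q.ord v x₀) + W := by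
        rw [hW, Finset.sum_sdiff hA]
        rfl
      rw [h6, add_sub_cancel_right, Finset.mul_sum]
      apply Finset.sum_congr rfl
      intro v _
      ring
    linarith
  have h3 := h1.trans h2
  have h4 : (q * (m - 1) * N) * ((N - 1) * h0 Q S x₀) ≤
      (q * (m - 1) * N) * (N * (h0 Q S x₀ - W)) := by linarith
  have h5 : 0 < (q : ℤ) * (m - 1) * N := by
    apply mul_pos (mul_pos (by omega) (by omega)) (by omega)
  have h6 := le_of_mul_le_mul_left h4 h5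
  linarith

/-- The main inequality. -/
theorem Glo.main (hENG : S_ENG.{v}) (H : Glo Q q e m z c R x₀ S) (hD : Q.D c ≠ 0)
    (hinj : ∀ x ∈ R, ∀ y ∈ R, x ^ (q * m) + c = y ^ (q * m) + c → x = y)
    (hsur : ∀ y ∈ R, ∃ x ∈ R, x ^ (q * m) + c = y) :
    ((R.card : ℤ) * (q * (m - 1) - 2) - (q * (m + 1) - 2)) * h0 Q S x₀ ≤ R.card * (q * Q.T) := by
  classical
  have hq2 := two_le_q (p := p) H.hq H.he
  have hm := H.hm
  have hq' : (2 : ℤ) ≤ q := by exact_mod_cast hq2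
  have hm' : (2 : ℤ) ≤ m := by exact_mod_cast hm
  set A := S.filter fun v => ∀ x ∈ R, ∀ y ∈ R, Q.Same v (-Q.ord v x₀) x y with hA
  have hAS : A ⊆ S := Finset.filter_subset _ _
  have hW := H.const_weight hENG hinj A hAS (fun v hv => (Finset.mem_filter.mp hv).2)
  set W := ∑ v ∈ A, Q.wt v * (-Q.ord v x₀) with hWd
  have h1 := Q.loss_bound hD S (fun v => if v ∈ A then -(2 * q) * -Q.ord v x₀ else
    (q * (m - 1) - 2) * -Q.ord v x₀) q (by omega) (by
      intro v hv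
      by_cases hvA : v ∈ A
      · simp only [if_pos hvA]
        exact H.bd_bad hD hsur hv
      · simp only [if_neg hvA]
        have h2 : ¬ ∀ x ∈ R, ∀ y ∈ R, Q.Same v (-Q.ord v x₀) x y := fun h =>
          hvA (Finset.mem_filter.mpr ⟨hv, h⟩)
        push Not at h2
        obtain ⟨x, hx, y, hy, hs⟩ := h2
        exact H.bd_two hD hinj hsur hv hx hy hs) (fun v hv => H.bd_good hD hv)
  have h2 : ∑ v ∈ S, Q.wt v * (if v ∈ A then -(2 * q) * -Q.ord v x₀ else
      (q * (m - 1) - 2) * -Q.ord v x₀) =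
      (q * (m - 1) - 2) * (h0 Q S x₀ - W) - 2 * q * W := by
    rw [← Finset.sum_sdiff hAS]
    have h3 : ∑ v ∈ S \ A, Q.wt v * (if v ∈ A then -(2 * q) * -Q.ord v x₀ else
        (q * (m - 1) - 2) * -Q.ord v x₀) = (q * (m - 1) - 2) * (h0 Q S x₀ - W) := by
      have h6 : h0 Q S x₀ = ∑ v ∈ S \ A, Q.wt v * (-Q.ord v x₀) + W := by
        rw [hWd, Finset.sum_sdiff hAS]
        rfl
      rw [h6, add_sub_cancel_right, Finset.mul_sum]
      apply Finset.sum_congr rfl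
      intro v hv
      rw [if_neg (Finset.mem_sdiff.mp hv).2]
      ring
    have h4 : ∑ v ∈ A, Q.wt v * (if v ∈ A then -(2 * q) * -Q.ord v x₀ else
        (q * (m - 1) - 2) * -Q.ord v x₀) = -(2 * q * W) := by
      rw [hWd, Finset.mul_sum, ← Finset.sum_neg_distrib]
      apply Finset.sum_congr rfl
      intro v hv
      rw [if_pos hv]
      ring
    rw [h3, h4]
    ring
  rw [h2] at h1
  have hN0 : (0 : ℤ) ≤ R.card := by positivity
  have h3 : (R.card : ℤ) * ((q * (m - 1) - 2) * (h0 Q S x₀ - W) - 2 * q * W) ≤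
      R.card * (q * Q.T) := mul_le_mul_of_nonneg_left h1 hN0
  have h4 : (q * (m + 1) - 2 : ℤ) * (R.card * W) ≤ (q * (m + 1) - 2) * h0 Q S x₀ :=
    mul_le_mul_of_nonneg_left hW (by nlinarith)
  nlinarith

end PC

end Pool.Agent.P8H29.UI
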