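import Mathlib
import Pool.Agent.P8H29.UI.Core7

/-!
# Project UI: tails
-/

namespace Pool.Agent.P8H29.UI

open Finset Polynomial

universe u v w

namespace PC

variable {p : ℕ} {k : Type u} {K : Type v} [Field k] [Field K] [Algebra k K] {Q : PC.{u, v, w} p k K}
  [Fact p.Prime] [CharP K p] {q e m : ℕ} {z : k} {c : K} {R : Finset K} {x₀ : K} {S : Finset Q.Pl}

/-- an `m`-th root -/
lemma exists_root_of_pow_eq {a b : K} (hb : b ≠ 0) {m s : ℕ} (hm : 1 ≤ m) (hcop : Nat.Coprime m s)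
    (h : a ^ m = b ^ s) : ∃ X : K, X ^ m = b := by
  have ha : a ≠ 0 := by
    rintro rfl
    rw [zero_pow (by omega)] at h
    exact pow_ne_zero s hb h.symm
  have hg := Nat.gcd_eq_gcd_ab m s
  rw [hcop.gcd_eq_one] at hg
  set α := Nat.gcdA m s
  set β := Nat.gcdB m s
  refine ⟨a ^ β * b ^ α, ?_⟩
  have h1 : (a ^ β * b ^ α) ^ m = (a ^ m) ^ β * b ^ ((m : ℤ) * α) := by
    rw [mul_pow, ← zpow_natCast (a ^ β), ← zpow_mul, mul_comm β, zpow_mul, zpow_natCast,
      ← zpow_natCast (b ^ α), ← zpow_mul, mul_comm α]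
  rw [h1, h, ← zpow_natCast b s, ← zpow_mul, ← zpow_add₀ hb]
  have : (s : ℤ) * β + m * α = 1 := by
    push_cast at hg
    linarith
  rw [this, zpow_one]

/-- Existence of a deep tail bounds the height. -/
lemma Glo.tail [CharP k p] [IsAlgClosed k] (H : Glo Q q e m z c R x₀ S) (hpm : ¬ p ∣ m)
    (hD : Q.D c ≠ 0) (hsur : ∀ y ∈ R, ∃ x ∈ R, x ^ (q * m) + c = y) {j : ℕ} {u y ζ : K} (hy : y ∈ R)
    (hζ : ζ ^ m = 1) (hζ1 : ζ ≠ 1)
    (h : u ^ (q * m) + c ^ (p ^ j) = ζ * y ^ (p ^ j)) :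
    (q * (m - 1) - 2) * h0 Q S x₀ ≤ Q.T := by
  classical
  have hq2 := two_le_q (p := p) H.hq H.he
  have hm := H.hm
  have hp := (Fact.out : p.Prime)
  -- the root of unity
  obtain ⟨α, hα, hαζ⟩ := root_alg (K := K) (by omega : 1 ≤ m) H.hz hζ
  obtain ⟨α₀, hα₀⟩ := IsAlgClosed.exists_pow_nat_eq α (n := p ^ j) (pow_pos hp.pos j)
  set ζ₀ := algebraMap k K α₀ with hζ₀
  have e1 : ζ₀ ^ (p ^ j) = ζ := by rw [hζ₀, ← map_pow, hα₀, hαζ]
  have hζ₀m : ζ₀ ^ m = 1 := by
    have h1 : (ζ₀ ^ m - 1) ^ (p ^ j) = 0 := by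
      rw [sub_pow_char_pow, one_pow, ← pow_mul, mul_comm, pow_mul, e1, hζ, sub_self]
    exact sub_eq_zero.mp (pow_eq_zero_iff (pow_pos hp.pos j).ne' |>.mp h1)
  have hζ₀1 : ζ₀ ≠ 1 := by
    intro h1
    rw [h1, one_pow] at e1
    exact hζ1 e1.symm
  set b := ζ₀ * y - c with hb
  obtain ⟨x, hx, hxy⟩ := hsur y hy
  have hDy : Q.D y = Q.D c := by rw [← hxy, H.D_eq]
  have hDb : Q.D b = (ζ₀ - 1) * Q.D c := by
    rw [hb, map_sub, hζ₀, Q.D_alg_mul, hDy]
    ring
  have hζs : ζ₀ - 1 ≠ 0 := sub_ne_zero.mpr hζ₀1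
  have hDb0 : Q.D b ≠ 0 := by
    rw [hDb]
    exact mul_ne_zero hζs hD
  have hb0 : b ≠ 0 := by
    intro h1
    rw [h1, map_zero] at hDb0
    exact hDb0 rfl
  have h2 : (u ^ q) ^ m = b ^ (p ^ j) := by
    rw [← pow_mul, hb, sub_pow_char_pow, mul_pow, e1, ← h]
    ring
  have hcop : Nat.Coprime m (p ^ j) := by
    apply Nat.Coprime.pow_right
    rw [Nat.coprime_comm, hp.coprime_iff_not_dvd]
    exact hpm
  obtain ⟨X, hX⟩ := exists_root_of_pow_eq hb0 (by omega : 1 ≤ m) hcop h2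
  have hX0 : X ≠ 0 := by
    rintro rfl
    rw [zero_pow (by omega)] at hX
    exact hb0 hX.symm
  -- the derivative
  have hmk : (m : k) ≠ 0 := by
    intro h1
    exact hpm ((CharP.cast_eq_zero_iff k p m).mp h1)
  have h3 : (ζ₀ - 1) * Q.D c = algebraMap k K (m : k) * (X ^ (m - 1) * Q.D X) := by
    rw [← hDb, ← hX, Derivation.leibniz_pow, map_natCast, nsmul_eq_mul, smul_eq_mul]
  have hDX : Q.D X ≠ 0 := by
    intro h1
    rw [h1, mul_zero, mul_zero] at h3
    exact mul_ne_zero hζs hD h3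
  have hord : ∀ v : Q.Pl, Q.ord v (Q.D c) = (m - 1) * Q.ord v X + Q.ord v (Q.D X) := by
    intro v
    have h4 := congrArg (Q.ord v) h3
    have hmK : algebraMap k K (m : k) ≠ 0 := (_root_.map_ne_zero _).mpr hmk
    rw [Q.ord_mul v _ _ hζs hD, Q.ord_mul v _ _ hmK (mul_ne_zero (pow_ne_zero _ hX0) hDX),
      Q.ord_mul v _ _ (pow_ne_zero _ hX0) hDX, Q.ord_pow v hX0, Q.ord_alg v _ hmk,
      ord_root_sub (by omega) H.hz hζ₀m (one_pow m) hζ₀1] at h4
    have h5 : ((m - 1 : ℕ) : ℤ) = m - 1 := by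
      have : 1 ≤ m := by omega
      push_cast [Nat.cast_sub this]
      ring
    rw [h5] at h4
    linarith
  have hXg : ∀ v, v ∉ S → 0 ≤ Q.ord v X := by
    intro v hv
    have h4 := good_int (Q := Q) (v := v) (d := q * m) (by nlinarith) H.hR (H.good hv) y hy
    have h5 : Q.G v 0 b := by
      rw [hb]
      apply G_sub _ (H.good hv)
      have := G_mul (Q := Q) (v := v) (a := 0) (b := 0) (G_alg v α₀) h4
      rwa [zero_add] at this
    have h6 := h5 hb0
    rw [← hX, Q.ord_pow v hX0] at h6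
    by_contra hcon
    push Not at hcon
    have : (m : ℤ) * Q.ord v X < 0 := mul_neg_of_pos_of_neg (by omega) hcon
    omega
  have hXb : ∀ v ∈ S, Q.ord v X = -q * -Q.ord v x₀ := by
    intro v hv
    have L := H.loc hv
    have h4 : Q.ord v b = Q.ord v c := by
      have h5 : b = -c + ζ₀ * y := by rw [hb]; ring
      have h6 := ord_add_lt (Q := Q) (v := v) (x := -c) (y := ζ₀ * y) (neg_ne_zero.mpr H.hc0) (by
        rw [Q.ord_neg v H.hc0, L.oc]
        have h7 := G_mul (Q := Q) (v := v) (a := 0) (b := Q.ord v y) (x := ζ₀) (G_alg v α₀)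
          (fun _ => le_rfl)
        refine G_mono h7 ?_
        rw [L.o y hy]
        have h8 := L.hr
        have h9 : (4 : ℤ) ≤ q * m := by
          have : 4 ≤ q * m := by nlinarith
          exact_mod_cast this
        nlinarith)
      rw [h5, h6.2, Q.ord_neg v H.hc0]
    rw [← hX, Q.ord_pow v hX0, L.oc] at h4
    have h5 : (m : ℤ) * (Q.ord v X - -q * -Q.ord v x₀) = 0 := by linear_combination h4
    rcases mul_eq_zero.mp h5 with h6 | h6
    · omega
    · linarith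
  -- summation
  set S' := S ∪ (Q.fin X hX0).toFinset with hS'
  have hSS : S ⊆ S' := Finset.subset_union_left
  have h5 := Q.loss_bound hD S' (fun v => if v ∈ S then -2 * -Q.ord v x₀ else (m - 1) * Q.ord v X)
    1 (by norm_num) (by
      intro v _
      by_cases hvS : v ∈ S
      · simp only [if_pos hvS, one_mul]
        have h6 := H.bd_bad hD hsur hvS
        have h7 : (0 : ℤ) < q := by omega
        have h8 : (q : ℤ) * (-2 * -Q.ord v x₀) ≤ q * (Q.ord v (Q.D c) + Q.ls v) := by linarith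
        exact le_of_mul_le_mul_left h8 h7
      · simp only [if_neg hvS, one_mul]
        rw [hord v]
        have h6 := Q.G_D0 (v := v) X hDX (fun _ => hXg v hvS)
        linarith) (by
      intro v hv
      exact H.bd_good hD (fun h => hv (hSS h)))
  have h6 := Q.sum X hX0 S' (by
    intro v hv
    by_contra hcon
    exact hv (by simp [hS', hcon]))
  rw [← Finset.sum_sdiff hSS] at h5 h6
  have h7 : ∑ v ∈ S, Q.wt v * Q.ord v X = -(q * h0 Q S x₀) := by
    unfold h0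
    rw [Finset.mul_sum, ← Finset.sum_neg_distrib]
    apply Finset.sum_congr rfl
    intro v hv
    rw [hXb v hv]
    ring
  have h8 : ∑ v ∈ S' \ S, Q.wt v * (if v ∈ S then -2 * -Q.ord v x₀ else (m - 1) * Q.ord v X) =
      (m - 1) * ∑ v ∈ S' \ S, Q.wt v * Q.ord v X := by
    rw [Finset.mul_sum]
    apply Finset.sum_congr rfl
    intro v hv
    rw [if_neg (Finset.mem_sdiff.mp hv).2]
    ring
  have h9 : ∑ v ∈ S, Q.wt v * (if v ∈ S then -2 * -Q.ord v x₀ else (m - 1) * Q.ord v X) =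
      -(2 * h0 Q S x₀) := by
    unfold h0
    rw [Finset.mul_sum, ← Finset.sum_neg_distrib]
    apply Finset.sum_congr rfl
    intro v hv
    rw [if_pos hv]
    ring
  rw [h8, h9] at h5
  rw [h7] at h6
  have h10 : ∑ v ∈ S' \ S, Q.wt v * Q.ord v X = q * h0 Q S x₀ := by linarith
  rw [h10] at h5
  linarith

end PC

end Pool.Agent.P8H29.UI
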