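import Mathlib
import Pool.Agent.P8H29.UI.Core8

/-!
# Project UI: the bound for finite stable sets
-/

namespace Pool.Agent.P8H29.UI

open Finset Polynomial

universe u v w

/-- The first bound. -/
def bb (q m : ℕ) : ℕ := q * (m + 1) - 2

/-- The bound in terms of the total loss. -/
def BB (q m : ℕ) (T : ℤ) : ℕ := max (m ^ (2 * q * T.toNat)) (2 * m * bb q m)

namespace PC

variable {p : ℕ} {k : Type u} {K : Type v} [Field k] [Field K] [Algebra k K] {Q : PC.{u, v, w} p k K}
  [Fact p.Prime] [CharP K p] {q e m : ℕ} {z : k} {c : K} {R : Finset K} {x₀ : K} {S : Finset Q.Pl}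

lemma a_pos (hq : q = p ^ e) (he : 1 ≤ e) (hm : 2 ≤ m) (hpm : ¬ p ∣ m) :
    3 ≤ q * (m - 1) ∧ ¬ (q = 2 ∧ m = 2) := by
  have hq2 := two_le_q (p := p) hq he
  have h1 : ¬ (q = 2 ∧ m = 2) := by
    rintro ⟨h1, h2⟩
    apply hpm
    have h3 : p ∣ q := by
      rw [hq]
      exact dvd_pow_self p (by omega)
    rw [h2, ← h1]
    exact h3
  refine ⟨?_, h1⟩
  obtain ⟨n, rfl⟩ : ∃ n, m = n + 1 := ⟨m - 1, by omega⟩
  rw [Nat.add_sub_cancel]
  rcases Nat.lt_or_ge q 3 with h2 | h2
  · have : q = 2 := by omega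
    subst this
    have : n ≠ 1 := by
      rintro rfl
      exact h1 ⟨rfl, rfl⟩
    omega
  · nlinarith

/-- Consequences of the main inequality for periodic points. -/
lemma Glo.per (hENG : S_ENG.{v}) (H : Glo Q q e m z c R x₀ S) (hpm : ¬ p ∣ m) (hD : Q.D c ≠ 0)
    (hinj : ∀ x ∈ R, ∀ y ∈ R, x ^ (q * m) + c = y ^ (q * m) + c → x = y)
    (hsur : ∀ y ∈ R, ∃ x ∈ R, x ^ (q * m) + c = y) :
    (Q.T < 0 → R.card ≤ 6) ∧ (2 * bb q m ≤ R.card → h0 Q S x₀ ≤ 2 * q * Q.T) := by
  have hq2 := two_le_q (p := p) H.hq H.he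
  have hm := H.hm
  obtain ⟨ha, hne⟩ := a_pos (p := p) H.hq H.he hm hpm
  have hmain := H.main hENG hD hinj hsur
  have hh := H.h0_pos
  have ha' : (3 : ℤ) ≤ q * (m - 1) := by
    have : ((3 : ℕ) : ℤ) ≤ ((q * (m - 1) : ℕ) : ℤ) := by exact_mod_cast ha
    push_cast [Nat.cast_sub (by omega : 1 ≤ m)] at this
    exact this
  have hN1 : (1 : ℤ) ≤ R.card := by
    have : 0 < R.card := Finset.card_pos.mpr ⟨x₀, H.hx₀⟩
    exact_mod_cast this
  have hq' : (2 : ℤ) ≤ q := by exact_mod_cast hq2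
  have hm' : (2 : ℤ) ≤ m := by exact_mod_cast hm
  have hbb : ((bb q m : ℕ) : ℤ) = q * (m + 1) - 2 := by
    unfold bb
    have : 2 ≤ q * (m + 1) := by nlinarith
    push_cast [Nat.cast_sub this]
    ring
  constructor
  · intro hT
    by_contra hcon
    push Not at hcon
    have h7 : (7 : ℤ) ≤ R.card := by exact_mod_cast hcon
    have h1 : (R.card : ℤ) * (q * Q.T) < 0 := by
      apply mul_neg_of_pos_of_neg (by omega)
      exact mul_neg_of_pos_of_neg (by omega) hT
    have h2 : ((R.card : ℤ) * (q * (m - 1) - 2) - (q * (m + 1) - 2)) < 0 := by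
      by_contra h
      push Not at h
      have := mul_nonneg h (by omega : 0 ≤ h0 Q S x₀)
      omega
    have h3 : (7 : ℤ) * (q * (m - 1) - 2) ≤ R.card * (q * (m - 1) - 2) :=
      mul_le_mul_of_nonneg_right h7 (by omega)
    -- `q (3 m - 4) < 6`
    have h4 : (q : ℤ) * (3 * m - 4) < 6 := by nlinarith
    rcases Nat.lt_or_ge m 3 with h5 | h5
    · have h6 : m = 2 := by omega
      subst h6
      push_cast at h4
      have : q = 2 := by omega
      exact hne ⟨this, rfl⟩
    · have h6 : (3 : ℤ) ≤ m := by exact_mod_cast h5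
      nlinarith
  · intro hN
    have h1 : 2 * ((bb q m : ℕ) : ℤ) ≤ R.card := by exact_mod_cast hN
    rw [hbb] at h1
    have h2 : (R.card : ℤ) ≤ 2 * ((R.card : ℤ) * (q * (m - 1) - 2) - (q * (m + 1) - 2)) := by
      have h3 : (R.card : ℤ) * 1 ≤ R.card * (q * (m - 1) - 2) :=
        mul_le_mul_of_nonneg_left (by omega) (by omega)
      linarith
    have h3 : (R.card : ℤ) * h0 Q S x₀ ≤ R.card * (2 * q * Q.T) := by
      have h4 := mul_le_mul_of_nonneg_right h2 (by omega : 0 ≤ h0 Q S x₀)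
      linarith
    exact le_of_mul_le_mul_left h3 (by omega)

/-- periodic points are `p`-th powers if `c` is one -/
lemma per_root (hq : q = p ^ e) (he : 1 ≤ e) {c : K} {x : K}
    (hx : x ∈ Function.periodicPts fun y : K => y ^ (q * m) + c ^ p) :
    ∃ x₁ ∈ Function.periodicPts fun y : K => y ^ (q * m) + c, x₁ ^ p = x := by
  obtain ⟨y, _, hy⟩ := (Function.bijOn_periodicPts _).surjOn hx
  simp only at hy
  obtain ⟨e', rfl⟩ : ∃ e', e = e' + 1 := ⟨e - 1, by omega⟩
  set x₁ := y ^ (p ^ e' * m) + c with hx₁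
  have hx₁x : x₁ ^ p = x := by
    rw [hx₁, add_pow_char, ← hy, hq]
    ring
  refine ⟨x₁, ?_, hx₁x⟩
  have hit : ∀ n : ℕ, ((fun y : K => y ^ (q * m) + c)^[n] x₁) ^ p =
      (fun y : K => y ^ (q * m) + c ^ p)^[n] x := by
    intro n
    induction n with
    | zero => exact hx₁x
    | succ n ih =>
      rw [Function.iterate_succ_apply', Function.iterate_succ_apply', ← ih]
      rw [add_pow_char, ← pow_mul, ← pow_mul, mul_comm p]
  obtain ⟨n, hn, hn'⟩ := hx
  refine ⟨n, hn, ?_⟩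
  have h1 := hit n
  have h2 : (fun y : K => y ^ (q * m) + c ^ p)^[n] x = x := hn'
  rw [h2, ← hx₁x] at h1
  exact frobenius_inj K p h1

lemma per_root' (hq : q = p ^ e) (he : 1 ≤ e) (j : ℕ) {c : K} {x : K}
    (hx : x ∈ Function.periodicPts fun y : K => y ^ (q * m) + c ^ (p ^ j)) :
    ∃ x₁ ∈ Function.periodicPts fun y : K => y ^ (q * m) + c, x₁ ^ (p ^ j) = x := by
  induction j generalizing c x with
  | zero =>
    refine ⟨x, ?_, by simp⟩
    simpa using hx
  | succ j ih =>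
    have e1 : c ^ (p ^ (j + 1)) = (c ^ (p ^ j)) ^ p := by rw [← pow_mul, pow_succ]
    rw [e1] at hx
    obtain ⟨x₁, hx₁, h1⟩ := per_root (p := p) hq he hx
    obtain ⟨x₂, hx₂, h2⟩ := ih hx₁
    refine ⟨x₂, hx₂, ?_⟩
    rw [pow_succ, pow_mul, h2, h1]

/-- `c` is a power of an element with nonzero derivative -/
lemma exists_desc (Q : PC.{u, v, w} p k K) (c : K) (hc : ∀ a : k, algebraMap k K a ≠ c) :
    ∃ (j : ℕ) (c₀ : K), c = c₀ ^ (p ^ j) ∧ Q.D c₀ ≠ 0 ∧ ∀ a : k, algebraMap k K a ≠ c₀ := by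
  have hp := (Fact.out : p.Prime)
  obtain ⟨S, ⟨v, hv⟩, hS⟩ := exists_bad Q hc
  rw [hS] at hv
  obtain ⟨n, hn⟩ : ∃ n : ℕ, -(n : ℤ) ≤ Q.ord v c := ⟨(-Q.ord v c).toNat, by omega⟩
  clear hS
  induction n using Nat.strong_induction_on generalizing c with
  | _ n ih =>
    by_cases hD : Q.D c = 0
    · obtain ⟨y, rfl⟩ := Q.D_ker c hD
      have hy0 : y ≠ 0 := by
        rintro rfl
        apply hc 0
        rw [map_zero, zero_pow hp.ne_zero]
      rw [Q.ord_pow v hy0] at hv hn
      have hp2 : (2 : ℤ) ≤ p := by exact_mod_cast hp.two_le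
      have hyv : Q.ord v y < 0 := by
        by_contra h
        push Not at h
        have := mul_nonneg (by omega : (0 : ℤ) ≤ p) h
        omega
      obtain ⟨j, c₀, h1, h2, h3⟩ := ih (-Q.ord v y).toNat (by
        have : (((-Q.ord v y).toNat : ℕ) : ℤ) = -Q.ord v y := Int.toNat_of_nonneg (by omega)
        zify
        rw [this]
        nlinarith) y (by
        intro a ha
        apply hc (a ^ p)
        rw [map_pow, ha]) hyv (by omega)
      refine ⟨j + 1, c₀, ?_, h2, h3⟩
      rw [h1, ← pow_mul, pow_succ]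
    · exact ⟨0, c, by simp, hD, hc⟩

/-- **The bound for finite stable sets.** -/
theorem card_le_all (hENG : S_ENG.{v}) [CharP k p] [IsAlgClosed k] (Q : PC.{u, v, w} p k K)
    (hq : q = p ^ e) (he : 1 ≤ e) (hm : 2 ≤ m) (hpm : ¬ p ∣ m) (c : K)
    (hc : ∀ a : k, algebraMap k K a ≠ c) (R : Finset K) (hR : ∀ x ∈ R, x ^ (q * m) + c ∈ R) :
    R.card ≤ BB q m Q.T ∧ (Q.T < 0 → R.card ≤ 6 * m ∧
      (↑R ∩ Function.periodicPts fun y : K => y ^ (q * m) + c).ncard ≤ 6) := by
  classical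
  have hp := (Fact.out : p.Prime)
  have hq2 := two_le_q (p := p) hq he
  have hc0 : c ≠ 0 := fun h => hc 0 (by rw [h, map_zero])
  have : NeZero (m : k) := ⟨fun h => hpm ((CharP.cast_eq_zero_iff k p m).mp h)⟩
  obtain ⟨z, hz⟩ := HasEnoughRootsOfUnity.exists_primitiveRoot k m
  rcases R.eq_empty_or_nonempty with hE | hRne
  · subst hE
    simp
  set f : K → K := fun y => y ^ (q * m) + c with hf
  -- the periodic points
  set P := R.filter fun x => x ∈ Function.periodicPts f with hP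
  have hbij := Function.bijOn_periodicPts f
  have hPR : ∀ x, x ∈ P ↔ x ∈ R ∧ x ∈ Function.periodicPts f := fun x => by
    rw [hP, Finset.mem_filter]
  have hPf : ∀ x ∈ P, f x ∈ P := fun x hx => by
    rw [hPR] at hx ⊢
    exact ⟨hR x hx.1, hbij.mapsTo hx.2⟩
  have hRit : ∀ n : ℕ, ∀ x ∈ R, f^[n] x ∈ R := by
    intro n
    induction n with
    | zero => intro x hx; exact hx
    | succ n ih =>
      intro x hx
      rw [Function.iterate_succ_apply']
      exact hR _ (ih x hx)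
  -- every point becomes periodic
  have hev : ∀ x ∈ R, ∃ n : ℕ, f^[n] x ∈ P := by
    intro x hx
    have h1 : ∃ a b : ℕ, a < b ∧ f^[a] x = f^[b] x := by
      have h2 : ¬ Function.Injective fun n : ℕ => (⟨f^[n] x, hRit n x hx⟩ : R) :=
        not_injective_infinite_finite _
      rw [Function.Injective] at h2
      push Not at h2
      obtain ⟨a, b, h3, h4⟩ := h2
      have h5 := congrArg Subtype.val h3
      rcases lt_or_gt_of_ne h4 with h6 | h6
      · exact ⟨a, b, h6, h5⟩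
      · exact ⟨b, a, h6, h5.symm⟩
    obtain ⟨a, b, hab, h2⟩ := h1
    refine ⟨a, (hPR _).mpr ⟨hRit a x hx, b - a, by omega, ?_⟩⟩
    show f^[b - a] (f^[a] x) = f^[a] x
    rw [← Function.iterate_add_apply, Nat.sub_add_cancel hab.le]
    exact h2.symm
  have hPper : ∀ y ∈ P, ∃ x ∈ P, f x = y := by
    intro y hy
    obtain ⟨n, hn, hn'⟩ := ((hPR y).mp hy).2
    have h1 : f^[n] y = y := hn'
    have h2 : ∀ i : ℕ, f^[i] y ∈ P := by
      intro i
      induction i with
      | zero => exact hy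
      | succ i ih =>
        rw [Function.iterate_succ_apply']
        exact hPf _ ih
    refine ⟨f^[n - 1] y, h2 _, ?_⟩
    rw [← Function.iterate_succ_apply' f, Nat.succ_eq_add_one, Nat.sub_add_cancel hn, h1]
  have hPne : P.Nonempty := by
    obtain ⟨x, hx⟩ := hRne
    obtain ⟨n, hn⟩ := hev x hx
    exact ⟨_, hn⟩
  -- descent
  obtain ⟨j, c₀, hcc₀, hD, hc₀⟩ := exists_desc Q c hc
  have hroot : ∀ x : K, ∃ y : K, x ∈ P → y ∈ Function.periodicPts (fun y : K => y ^ (q * m) + c₀) ∧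
      y ^ (p ^ j) = x := by
    intro x
    by_cases hx : x ∈ P
    · have h1 := ((hPR x).mp hx).2
      rw [hf, hcc₀] at h1
      obtain ⟨y, hy, hy'⟩ := per_root' (p := p) hq he j h1
      exact ⟨y, fun _ => ⟨hy, hy'⟩⟩
    · exact ⟨0, fun h => absurd h hx⟩
  choose g hg using hroot
  set P₀ := P.image g with hP₀
  have hginj : Set.InjOn g P := by
    intro x hx y hy hxy
    rw [← (hg x hx).2, ← (hg y hy).2, hxy]
  have hcard : P₀.card = P.card := Finset.card_image_of_injOn hginj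
  have hpowinj : ∀ a b : K, a ^ (p ^ j) = b ^ (p ^ j) → a = b := by
    intro a b hab
    have h1 : (a - b) ^ (p ^ j) = 0 := by rw [sub_pow_char_pow, hab, sub_self]
    exact sub_eq_zero.mp (pow_eq_zero_iff (pow_pos hp.pos j).ne' |>.mp h1)
  have hfg : ∀ x ∈ P, (g x) ^ (q * m) + c₀ = g (f x) := by
    intro x hx
    apply hpowinj
    rw [(hg (f x) (hPf x hx)).2, add_pow_char_pow, ← pow_mul, mul_comm (q * m), pow_mul,
      (hg x hx).2, ← hcc₀]
  have hP₀R : ∀ x ∈ P₀, x ^ (q * m) + c₀ ∈ P₀ := by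
    intro x hx
    obtain ⟨y, hy, rfl⟩ := Finset.mem_image.mp hx
    rw [hfg y hy]
    exact Finset.mem_image_of_mem _ (hPf y hy)
  have hbij₀ := Function.bijOn_periodicPts (fun y : K => y ^ (q * m) + c₀)
  have hP₀per : ∀ x ∈ P₀, x ∈ Function.periodicPts (fun y : K => y ^ (q * m) + c₀) := by
    intro x hx
    obtain ⟨y, hy, rfl⟩ := Finset.mem_image.mp hx
    exact (hg y hy).1
  have hinj₀ : ∀ x ∈ P₀, ∀ y ∈ P₀, x ^ (q * m) + c₀ = y ^ (q * m) + c₀ → x = y := fun x hx y hy h =>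
    hbij₀.injOn (hP₀per x hx) (hP₀per y hy) h
  have hsur₀ : ∀ y ∈ P₀, ∃ x ∈ P₀, x ^ (q * m) + c₀ = y := by
    intro y hy
    obtain ⟨y', hy', rfl⟩ := Finset.mem_image.mp hy
    obtain ⟨x', hx', h1⟩ := hPper y' hy'
    exact ⟨g x', Finset.mem_image_of_mem _ hx', by rw [hfg x' hx', h1]⟩
  obtain ⟨x₀, hx₀⟩ : P₀.Nonempty := hPne.image g
  obtain ⟨S, hSne, hS⟩ := exists_bad Q hc₀
  have hc₀0 : c₀ ≠ 0 := fun h => hc₀ 0 (by rw [h, map_zero])
  have H₀ : Glo Q q e m z c₀ P₀ x₀ S :=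
    { hq := hq, he := he, hm := hm, hz := hz, hc0 := hc₀0, hR := hP₀R, hx₀ := hx₀, hS := hS,
      hne := hSne }
  have hSc : ∀ v, v ∈ S ↔ Q.ord v c < 0 := by
    intro v
    rw [hS, hcc₀, Q.ord_pow v hc₀0]
    have : (0 : ℤ) < ((p ^ j : ℕ) : ℤ) := by exact_mod_cast pow_pos hp.pos j
    constructor
    · intro h
      exact mul_neg_of_pos_of_neg this h
    · intro h
      by_contra h'
      push Not at h'
      have := mul_nonneg this.le h'
      omega
  obtain ⟨x₁, hx₁⟩ := hRne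
  have H : Glo Q q e m z c R x₁ S :=
    { hq := hq, he := he, hm := hm, hz := hz, hc0 := hc0, hR := hR, hx₀ := hx₁, hS := hSc,
      hne := hSne }
  have hper := H₀.per hENG hpm hD hinj₀ hsur₀
  have hcardS := H₀.card_le_h0
  have hRS := H.card_le
  have hh₀ := H₀.h0_pos
  obtain ⟨ha, -⟩ := a_pos (p := p) hq he hm hpm
  have ha' : (3 : ℤ) ≤ q * (m - 1) := by
    have : ((3 : ℕ) : ℤ) ≤ ((q * (m - 1) : ℕ) : ℤ) := by exact_mod_cast ha
    push_cast [Nat.cast_sub (by omega : 1 ≤ m)] at this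
    exact this
  have hnc : (↑R ∩ Function.periodicPts f : Set K).ncard = P.card := by
    rw [← Set.ncard_coe_finset]
    congr 1
    ext x
    simp [hP]
  -- a point outside `P` with image in `P` is a root of unity times a point of `P`
  have hzeta : ∀ y ∈ R, y ∉ P → f y ∈ P → ∃ ζ : K, ζ ^ m = 1 ∧ ζ ≠ 1 ∧ ∃ x ∈ P, y = ζ * x := by
    intro y hy hyP hfy
    obtain ⟨x, hx, hxy⟩ := hPper _ hfy
    have h1 : y ^ m - x ^ m = 0 := (eq_iff (c := c) hq he y x).mp hxy.symm
    rw [prod_roots (by omega) hz, Finset.prod_eq_zero_iff] at h1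
    obtain ⟨ζ, hζ, h2⟩ := h1
    rw [mem_roots' (by omega)] at hζ
    have h3 : y = ζ * x := sub_eq_zero.mp h2
    refine ⟨ζ, hζ, ?_, x, hx, h3⟩
    rintro rfl
    rw [one_mul] at h3
    rw [h3] at hyP
    exact hyP hx
  by_cases htail : ∃ u ∈ R, f u ∉ P
  · -- a deep tail
    obtain ⟨u, hu, hfu⟩ := htail
    -- the last point outside `P`
    have h1 : ∃ u ∈ R, f u ∉ P ∧ f (f u) ∈ P := by
      classical
      obtain ⟨n, hn⟩ := hev (f u) (hR u hu)
      have hex : ∃ n, f^[n] (f u) ∈ P := ⟨n, hn⟩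
      have h2 := Nat.find_spec hex
      have h3 : Nat.find hex ≠ 0 := by
        intro h
        rw [h] at h2
        exact hfu h2
      obtain ⟨i, hi⟩ : ∃ i, Nat.find hex = i + 1 := ⟨Nat.find hex - 1, by omega⟩
      have h4 := Nat.find_min hex (m := i) (by omega)
      rw [hi, Function.iterate_succ_apply'] at h2
      have e1 : f^[i] (f u) = f (f^[i] u) := by
        rw [← Function.iterate_succ_apply, Function.iterate_succ_apply']
      rw [e1] at h4 h2
      exact ⟨f^[i] u, hRit i u hu, h4, h2⟩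
    obtain ⟨u, hu, hfu, hffu⟩ := h1
    obtain ⟨ζ, hζ, hζ1, y, hy, h2⟩ := hzeta (f u) (hR u hu) hfu hffu
    have h3 : u ^ (q * m) + c₀ ^ (p ^ j) = ζ * (g y) ^ (p ^ j) := by
      rw [← hcc₀, (hg y hy).2]
      exact h2
    have h4 := H₀.tail hpm hD hsur₀ (Finset.mem_image_of_mem g hy) hζ hζ1 h3
    have h5 : h0 Q S x₀ ≤ Q.T := by
      have : 1 * h0 Q S x₀ ≤ (q * (m - 1) - 2) * h0 Q S x₀ :=
        mul_le_mul_of_nonneg_right (by omega) (by omega)
      linarith
    have h6 : S.card ≤ 2 * q * Q.T.toNat := by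
      have h7 : (Q.T.toNat : ℤ) = Q.T := Int.toNat_of_nonneg (by omega)
      zify
      rw [h7]
      have : (2 : ℤ) ≤ q := by exact_mod_cast hq2
      nlinarith
    refine ⟨?_, fun hT => absurd hT (by omega)⟩
    unfold BB
    exact (hRS.trans (Nat.pow_le_pow_right (by omega) h6)).trans (le_max_left _ _)
  · push Not at htail
    -- at most `m` times the number of periodic points
    have h1 : R.card ≤ m * P.card := by
      have h2 : R ⊆ (nthRootsFinset m (1 : K) ×ˢ P).image fun z : K × K => z.1 * z.2 := by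
        intro x hx
        rw [Finset.mem_image]
        by_cases hxP : x ∈ P
        · exact ⟨(1, x), by simp [hxP, mem_roots' (by omega : 1 ≤ m)], by simp⟩
        · obtain ⟨ζ, hζ, -, y, hy, h3⟩ := hzeta x hx hxP (htail x hx)
          exact ⟨(ζ, y), by simp [hy, mem_roots' (by omega : 1 ≤ m), hζ], h3.symm⟩
      refine (Finset.card_le_card h2).trans (Finset.card_image_le.trans ?_)
      rw [Finset.card_product, card_roots (by omega) hz]
    refine ⟨?_, ?_⟩
    · unfold BB
      rcases Nat.lt_or_ge P.card (2 * bb q m) with h2 | h2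
      · refine le_trans ?_ (le_max_right _ _)
        calc R.card ≤ m * P.card := h1
          _ ≤ m * (2 * bb q m) := Nat.mul_le_mul_left _ h2.le
          _ = _ := by ring
      · refine le_trans ?_ (le_max_left _ _)
        refine hRS.trans (Nat.pow_le_pow_right (by omega) ?_)
        have h3 := hper.2 (by rw [hcard]; exact h2)
        have hT : 0 ≤ Q.T := by
          by_contra hcon
          push Not at hcon
          have : (2 : ℤ) * q * Q.T < 0 := mul_neg_of_pos_of_neg (by positivity) hcon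
          omega
        have h7 : (Q.T.toNat : ℤ) = Q.T := Int.toNat_of_nonneg hT
        zify
        rw [h7]
        omega
    · intro hT
      have h2 := hper.1 hT
      rw [hcard] at h2
      refine ⟨?_, by rw [hnc]; exact h2⟩
      calc R.card ≤ m * P.card := h1
        _ ≤ m * 6 := Nat.mul_le_mul_left _ h2
        _ = _ := by ring

end PC

end Pool.Agent.P8H29.UI
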