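import Mathlib
import Pool.Agent.P8H29.UI.Core9
import Pool.Agent.P8H52.UI.Ex
import Pool.Agent.P8H52.UI.Rat
import Pool.Agent.P8H52.UI.Red
import Pool.Agent.P8H52.UI.Eng

/-!
# Project UI: assembly
-/

namespace Pool.Agent.P8H29.UI

open Finset Polynomial

universe u v w

/-- The forward closure of a finite set of preperiodic points. -/
lemma exists_closure {α : Type*} [DecidableEq α] (f : α → α) (s : Finset α)
    (hs : ∀ x ∈ s, (Set.range fun n : ℕ => f^[n] x).Finite) :
    ∃ R : Finset α, s ⊆ R ∧ (∀ x ∈ R, f x ∈ R) ∧ ∀ x ∈ R, ∃ y ∈ s, ∃ n : ℕ, f^[n] y = x := by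
  classical
  induction s using Finset.induction_on with
  | empty => exact ⟨∅, by simp⟩
  | insert a s _ ih =>
    obtain ⟨R, h1, h2, h3⟩ := ih fun x hx => hs x (Finset.mem_insert_of_mem hx)
    have ha := hs a (Finset.mem_insert_self _ _)
    refine ⟨ha.toFinset ∪ R, ?_, ?_, ?_⟩
    · intro x hx
      rw [Finset.mem_union, Set.Finite.mem_toFinset]
      rcases Finset.mem_insert.mp hx with rfl | hx
      · exact Or.inl ⟨0, rfl⟩
      · exact Or.inr (h1 hx)
    · intro x hx
      rw [Finset.mem_union, Set.Finite.mem_toFinset] at hx ⊢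
      rcases hx with ⟨n, rfl⟩ | hx
      · exact Or.inl ⟨n + 1, by simp only; rw [Function.iterate_succ_apply']⟩
      · exact Or.inr (h2 x hx)
    · intro x hx
      rw [Finset.mem_union, Set.Finite.mem_toFinset] at hx
      rcases hx with ⟨n, rfl⟩ | hx
      · exact ⟨a, Finset.mem_insert_self _ _, n, rfl⟩
      · obtain ⟨y, hy, n, hn⟩ := h3 x hx
        exact ⟨y, Finset.mem_insert_of_mem hy, n, hn⟩

/-- Transfer of a finite stable set over a purely inseparable extension. -/
lemma exists_transfer (p : ℕ) [Fact p.Prime] (k : Type v) (K : Type u) [Field k] [CharP k p]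
    [Field K] [Algebra k K] (K' : Type*) [Field K'] (j : K →+* K') (M : Type w)
    [Field M] [Algebra k M] [Algebra K M] [IsScalarTower k K M] [IsPurelyInseparable K M]
    (d : ℕ) (c : M) (hc : Transcendental k c) (R : Finset M) (hR : ∀ x ∈ R, x ^ d + c ∈ R) :
    ∃ (c' : K) (g : M → K'), Transcendental k c' ∧ Set.InjOn g R ∧
      (∀ x ∈ R, (g x) ^ d + j c' = g (x ^ d + c)) := by
  classical
  have hp := (Fact.out : p.Prime)
  have : CharP M p := charP_of_injective_algebraMap (algebraMap k M).injective p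
  have : CharP K p := charP_of_injective_algebraMap (algebraMap k K).injective p
  have h1 : ∀ x : M, ∃ n : ℕ, x ^ p ^ n ∈ (algebraMap K M).range := fun x =>
    IsPurelyInseparable.pow_mem K p x
  choose ν hν using h1
  set s := insert c R with hs
  set N := s.sup ν with hN
  have h2 : ∀ x ∈ s, ∃ y : K, algebraMap K M y = x ^ p ^ N := by
    intro x hx
    obtain ⟨y, hy⟩ := hν x
    refine ⟨y ^ p ^ (N - ν x), ?_⟩
    rw [map_pow, hy, ← pow_mul, ← pow_add, Nat.add_sub_cancel' (Finset.le_sup (f := ν) hx)]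
  have h3 : ∀ x : M, ∃ y : K, x ∈ s → algebraMap K M y = x ^ p ^ N := by
    intro x
    by_cases hx : x ∈ s
    · obtain ⟨y, hy⟩ := h2 x hx
      exact ⟨y, fun _ => hy⟩
    · exact ⟨0, fun h => absurd h hx⟩
  choose g hg using h3
  have hcs : c ∈ s := Finset.mem_insert_self _ _
  have hRs : ∀ x ∈ R, x ∈ s := fun x hx => Finset.mem_insert_of_mem hx
  refine ⟨g c, fun x => j (g x), ?_, ?_, ?_⟩
  · intro h
    have h4 : IsAlgebraic k (algebraMap K M (g c)) := h.algebraMap
    rw [hg c hcs] at h4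
    exact hc ((IsAlgebraic.of_pow (pow_pos hp.pos N)) h4)
  · intro x hx y hy hxy
    have h4 : g x = g y := j.injective hxy
    have h5 := hg x (hRs x hx)
    rw [h4, hg y (hRs y hy)] at h5
    have h6 : (x - y) ^ p ^ N = 0 := by rw [sub_pow_char_pow, h5, sub_self]
    exact sub_eq_zero.mp (pow_eq_zero_iff (pow_pos hp.pos N).ne' |>.mp h6)
  · intro x hx
    simp only
    rw [← map_pow, ← map_add]
    congr 1
    apply (algebraMap K M).injective
    rw [map_add, map_pow, hg x (hRs x hx), hg c hcs, hg _ (hRs _ (hR x hx)), add_pow_char_pow,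
      ← pow_mul, ← pow_mul, mul_comm d]

/-- the shape of `d` -/
lemma exists_shape (p : ℕ) [Fact p.Prime] (d : ℕ) (hpd : p ∣ d) (hd0 : d ≠ 0)
    (hd : ∀ e, d ≠ p ^ e) : ∃ e m : ℕ, 1 ≤ e ∧ 2 ≤ m ∧ ¬ p ∣ m ∧ d = p ^ e * m := by
  have hp := (Fact.out : p.Prime)
  obtain ⟨e, m, hm, rfl⟩ := Nat.exists_eq_pow_mul_and_not_dvd hd0 p hp.ne_one
  refine ⟨e, m, ?_, ?_, hm, rfl⟩
  · by_contra h
    have : e = 0 := by omega
    subst this
    rw [pow_zero, one_mul] at hpd
    exact hm hpd
  · by_contra h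
    have h1 : m = 0 ∨ m = 1 := by omega
    rcases h1 with rfl | rfl
    · simp at hd0
    · exact hd e (mul_one _)

/-- The bound for purely inseparable extensions. -/
theorem final (p : ℕ) [Fact p.Prime] (k : Type v) (K : Type u) [Field k] [CharP k p] [Field K]
    [Algebra k K] (t : K) (ht : Transcendental k t)
    (hfin : FiniteDimensional (IntermediateField.adjoin k {t}) K) (d : ℕ) (hpd : p ∣ d)
    (hd0 : d ≠ 0) (hd : ∀ e, d ≠ p ^ e) :
    (∃ B : ℕ, ∀ (M : Type w) [Field M] [Algebra k M] [Algebra K M] [IsScalarTower k K M]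
      [IsPurelyInseparable K M] (c : M), Transcendental k c →
      {x : M | (Set.range fun n : ℕ => (fun z : M => z ^ d + c)^[n] x).Finite}.encard ≤ B) ∧
    (IntermediateField.adjoin k {t} = ⊤ → ∀ (M : Type w) [Field M] [Algebra k M] [Algebra K M]
      [IsScalarTower k K M] [IsPurelyInseparable K M] (c : M), Transcendental k c →
      {x : M | (Set.range fun n : ℕ => (fun z : M => z ^ d + c)^[n] x).Finite}.encard ≤
        ((3 * d : ℕ) : ℕ∞) ∧
      {x : M | ∃ n : ℕ, 0 < n ∧ (fun z : M => z ^ d + c)^[n] x = x}.encard ≤ ((6 : ℕ) : ℕ∞)) := by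
  classical
  obtain ⟨e, m, he, hm, hpm, hdm⟩ := exists_shape p d hpd hd0 hd
  obtain ⟨k', K', i1, i2, i3, i4, i5, Q, j, hj, hQ⟩ :=
    Pool.Agent.P8H52.UI.red Pool.Agent.P8H52.UI.ex Pool.Agent.P8H52.UI.rat p k K t ht hfin
  have hK' : CharP K' p := charP_of_injective_algebraMap (algebraMap k' K').injective p
  -- the bound for finite stable sets over `M`
  have key : ∀ (M : Type w) [Field M] [Algebra k M] [Algebra K M] [IsScalarTower k K M]
      [IsPurelyInseparable K M] (c : M), Transcendental k c → ∀ R : Finset M,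
      (∀ x ∈ R, x ^ d + c ∈ R) → R.card ≤ BB (p ^ e) m Q.T ∧ (Q.T < 0 → R.card ≤ 6 * m ∧
        (R.filter fun x => ∃ n : ℕ, 0 < n ∧ (fun z : M => z ^ d + c)^[n] x = x).card ≤ 6) := by
    intro M _ _ _ _ _ c hc R hR
    obtain ⟨c', g, hc', hg, hgc⟩ := exists_transfer p k K K' j M d c hc R hR
    have h1 := PC.card_le_all (Pool.Agent.P8H52.UI.eng) Q (q := p ^ e) (e := e) (m := m) rfl he hm
      hpm (j c') (hj c' hc') (R.image g) (by
        intro x hx
        obtain ⟨y, hy, rfl⟩ := Finset.mem_image.mp hx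
        rw [← hdm, hgc y hy]
        exact Finset.mem_image_of_mem _ (hR y hy))
    rw [Finset.card_image_of_injOn hg] at h1
    refine ⟨h1.1, fun hT => ⟨(h1.2 hT).1, ?_⟩⟩
    refine le_trans ?_ (h1.2 hT).2
    have hit : ∀ n : ℕ, ∀ x ∈ R, (fun z : M => z ^ d + c)^[n] x ∈ R ∧
        (fun z : K' => z ^ (p ^ e * m) + j c')^[n] (g x) = g ((fun z : M => z ^ d + c)^[n] x) := by
      intro n
      induction n with
      | zero => intro x hx; exact ⟨hx, rfl⟩
      | succ n ih =>
        intro x hx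
        obtain ⟨h2, h3⟩ := ih x hx
        rw [Function.iterate_succ_apply', Function.iterate_succ_apply', h3]
        refine ⟨hR _ h2, ?_⟩
        rw [← hdm]
        exact hgc _ h2
    rw [← Finset.card_image_of_injOn (s := R.filter fun x => ∃ n : ℕ, 0 < n ∧
      (fun z : M => z ^ d + c)^[n] x = x) (f := g) (hg.mono (by
        intro x hx
        exact (Finset.mem_filter.mp hx).1)), ← Set.ncard_coe_finset]
    apply Set.ncard_le_ncard
    · intro y hy
      rw [Finset.mem_coe, Finset.mem_image] at hy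
      obtain ⟨x, hx, rfl⟩ := hy
      obtain ⟨hxR, n, hn, hnx⟩ := Finset.mem_filter.mp hx
      refine ⟨Finset.mem_coe.mpr (Finset.mem_image_of_mem _ hxR), n, hn, ?_⟩
      have h2 := (hit n x hxR).2
      rw [hnx] at h2
      exact h2
    · exact (Finset.finite_toSet _).subset Set.inter_subset_left
  -- sets of preperiodic points
  have key2 : ∀ (M : Type w) [Field M] [Algebra k M] [Algebra K M] [IsScalarTower k K M]
      [IsPurelyInseparable K M] (c : M), Transcendental k c → ∀ (s : Finset M),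
      (∀ x ∈ s, (Set.range fun n : ℕ => (fun z : M => z ^ d + c)^[n] x).Finite) →
      s.card ≤ BB (p ^ e) m Q.T ∧ (Q.T < 0 → s.card ≤ 6 * m ∧
        (s.filter fun x => ∃ n : ℕ, 0 < n ∧ (fun z : M => z ^ d + c)^[n] x = x).card ≤ 6) := by
    intro M _ _ _ _ _ c hc s hs
    obtain ⟨R, hsR, hR, -⟩ := exists_closure (fun z : M => z ^ d + c) s hs
    obtain ⟨h1, h2⟩ := key M c hc R hR
    refine ⟨(Finset.card_le_card hsR).trans h1, fun hT => ⟨(Finset.card_le_card hsR).trans (h2 hT).1,
      (Finset.card_le_card ?_).trans (h2 hT).2⟩⟩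
    intro x hx
    rw [Finset.mem_filter] at hx ⊢
    exact ⟨hsR hx.1, hx.2⟩
  -- from finite subsets to the set
  have henc : ∀ {α : Type w} (A : Set α) (b : ℕ), (∀ s : Finset α, ↑s ⊆ A → s.card ≤ b) →
      A.encard ≤ (b : ℕ∞) := by
    intro α A b h
    by_contra hcon
    push Not at hcon
    have h1 : ((b + 1 : ℕ) : ℕ∞) ≤ A.encard := by
      push_cast
      exact Order.add_one_le_of_lt hcon
    obtain ⟨s, hs1, hs2⟩ := Set.exists_subset_encard_eq h1
    have hsf : s.Finite := Set.finite_of_encard_eq_coe hs2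
    have h2 := h hsf.toFinset (by rwa [Set.Finite.coe_toFinset])
    rw [hsf.encard_eq_coe_toFinset_card] at hs2
    have h3 : hsf.toFinset.card = b + 1 := by exact_mod_cast hs2
    omega
  constructor
  · refine ⟨BB (p ^ e) m Q.T, ?_⟩
    intro M _ _ _ _ _ c hc
    apply henc
    intro s hs
    exact (key2 M c hc s fun x hx => hs hx).1
  · intro htop M _ _ _ _ _ c hc
    have hT : Q.T < 0 := by
      rw [hQ htop]
      norm_num
    have hq2 : 2 ≤ p ^ e := PC.two_le_q (p := p) rfl he
    constructor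
    · apply henc
      intro s hs
      refine ((key2 M c hc s fun x hx => hs hx).2 hT).1.trans ?_
      rw [hdm]
      nlinarith
    · apply henc
      intro s hs
      have h1 : ∀ x ∈ s, (Set.range fun n : ℕ => (fun z : M => z ^ d + c)^[n] x).Finite := by
        intro x hx
        obtain ⟨n, hn, hnx⟩ := hs hx
        apply (Finset.finite_toSet ((Finset.range n).image fun i =>
          (fun z : M => z ^ d + c)^[i] x)).subset
        rintro _ ⟨i, rfl⟩
        rw [Finset.mem_coe, Finset.mem_image]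
        refine ⟨i % n, Finset.mem_range.mpr (Nat.mod_lt _ hn), ?_⟩
        have h2 : Function.IsPeriodicPt (fun z : M => z ^ d + c) n x := hnx
        exact (h2.iterate_mod_apply i)
      have h2 := ((key2 M c hc s h1).2 hT).2
      have h3 : (s.filter fun x => ∃ n : ℕ, 0 < n ∧ (fun z : M => z ^ d + c)^[n] x = x) = s :=
        Finset.filter_true_of_mem fun x hx => hs hx
      rwa [h3] at h2

end Pool.Agent.P8H29.UI
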